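import Mathlib
import Pool.Agent.H69.NC.Osss
import Pool.Agent.H99.NC.Prob

set_option autoImplicit false
open Finset

/-! # Route W, W-D, S3.4: the abstract second moment lemma

`second_moment` : P(some `D i`) ≥ (E N)² / E N².
`moment_touch` : the number of plates that are touched by an arm on both sides of a chord is
positive with probability bounded below, from a one point lower bound `a n^(-s)` and a two point
upper bound `M (|i-j|+1)^(-s) n^(-s)` on each side (`2 s < 1`). -/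

namespace Pool.Agent.H91.W

open Pool.Agent.H75.Perc Pool.Agent.H75.TwoArm Pool.Agent.H69.NC Pool.Agent.H69.NC.Osss84

/-- The second moment inequality. -/
theorem second_moment {α ι : Type*} [DecidableEq α] {q : α → ℝ} (hq : Wt q) (E : Finset α)
    (I : Finset ι) (D : ι → Finset α → Prop) {m V : ℝ} (hm0 : 0 ≤ m)
    (hm : m ≤ ∑ i ∈ I, PQ q E (D i)) (hV0 : 0 < V)
    (hV : ∑ i ∈ I, ∑ j ∈ I, PQ q E (fun ω => D i ω ∧ D j ω) ≤ V) :
    m ^ 2 / V ≤ PQ q E (fun ω => ∃ i ∈ I, D i ω) := by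
  classical
  set p := PQ q E (fun ω => ∃ i ∈ I, D i ω) with hp
  have hp0 : 0 ≤ p := PQ_nonneg hq E _
  rcases hm0.lt_or_eq with hm1 | hm1
  swap
  · rw [← hm1]
    simpa using hp0
  set N : Finset α → ℝ := fun ω => ∑ i ∈ I, (if D i ω then (1 : ℝ) else 0) with hN
  have hN0 : ∀ ω, 0 ≤ N ω := fun ω => sum_nonneg fun i _ => by split_ifs <;> norm_num
  set t : ℝ := m / V with ht
  have ht0 : 0 < t := div_pos hm1 hV0
  have pt : ∀ ω, ω ⊆ E → N ω ≤ t / 2 * (N ω * N ω) +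
      1 / (2 * t) * (if ∃ i ∈ I, D i ω then (1 : ℝ) else 0) := by
    intro ω _
    by_cases h : ∃ i ∈ I, D i ω
    · rw [if_pos h, mul_one]
      have h1 : t / 2 * (N ω * N ω) + 1 / (2 * t) - N ω = (t * N ω - 1) ^ 2 / (2 * t) := by
        field_simp
        ring
      have h2 : 0 ≤ (t * N ω - 1) ^ 2 / (2 * t) := by positivity
      linarith
    · have h0 : N ω = 0 := by
        rw [hN]
        refine sum_eq_zero fun i hi => ?_
        rw [if_neg]
        exact fun hh => h ⟨i, hi, hh⟩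
      rw [if_neg h, h0]
      simp
  have e1 : ex q E N = ∑ i ∈ I, PQ q E (D i) := by
    rw [hN, ex_sum]
    exact sum_congr rfl fun i _ => (PQ_eq_ex q E (D i)).symm
  have e2 : ex q E (fun ω => N ω * N ω) =
      ∑ i ∈ I, ∑ j ∈ I, PQ q E (fun ω => D i ω ∧ D j ω) := by
    have : (fun ω => N ω * N ω) = fun ω => ∑ i ∈ I, ∑ j ∈ I,
        (if D i ω ∧ D j ω then (1 : ℝ) else 0) := by
      funext ω
      rw [hN]
      simp only
      rw [sum_mul_sum]
      refine sum_congr rfl fun i _ => sum_congr rfl fun j _ => ?_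
      by_cases hi : D i ω <;> by_cases hj : D j ω <;> simp [hi, hj]
    rw [this, ex_sum]
    refine sum_congr rfl fun i _ => ?_
    rw [ex_sum]
    exact sum_congr rfl fun j _ => (PQ_eq_ex q E (fun ω => D i ω ∧ D j ω)).symm
  have e3 : ex q E (fun ω => if ∃ i ∈ I, D i ω then (1 : ℝ) else 0) = p :=
    (PQ_eq_ex q E (fun ω => ∃ i ∈ I, D i ω)).symm
  have key := ex_mono hq pt
  rw [ex_add, ex_mul_left, ex_mul_left, e1, e2, e3] at key
  have h1 : m ≤ t / 2 * V + 1 / (2 * t) * p := by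
    have : t / 2 * ∑ i ∈ I, ∑ j ∈ I, PQ q E (fun ω => D i ω ∧ D j ω) ≤ t / 2 * V :=
      mul_le_mul_of_nonneg_left hV (by positivity)
    linarith
  have h2 : t / 2 * V = m / 2 := by
    rw [ht]; field_simp
  have h3 : 1 / (2 * t) * p = V * p / (2 * m) := by
    rw [ht]; field_simp
  rw [h2, h3] at h1
  have h4 : m / 2 ≤ V * p / (2 * m) := by linarith
  rw [le_div_iff₀ (by positivity)] at h4
  rw [div_le_iff₀ hV0]
  nlinarith

/-- `∑_{d<n} (d+1)^(-u) ≤ n^(1-u)/(1-u)` -/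
theorem sum_rpow_le {u : ℝ} (hu0 : 0 ≤ u) (hu : u < 1) (n : ℕ) :
    ∑ d ∈ range n, ((d : ℝ) + 1) ^ (-u) ≤ (n : ℝ) ^ (1 - u) / (1 - u) := by
  have hu1 : 0 < 1 - u := by linarith
  induction n with
  | zero =>
    simp only [range_zero, sum_empty, Nat.cast_zero]
    positivity
  | succ n ih =>
    rw [sum_range_succ]
    have hn : (0 : ℝ) ≤ n := Nat.cast_nonneg n
    have hn1 : (0 : ℝ) < (n : ℝ) + 1 := by linarith
    have hb : (1 + (-(1 / ((n : ℝ) + 1)))) ^ (1 - u) ≤ 1 + (1 - u) * (-(1 / ((n : ℝ) + 1))) := by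
      refine rpow_one_add_le_one_add_mul_self ?_ hu1.le (by linarith)
      have : 1 / ((n : ℝ) + 1) ≤ 1 := by
        rw [div_le_one hn1]; linarith
      linarith
    have e1 : 1 + (-(1 / ((n : ℝ) + 1))) = n / ((n : ℝ) + 1) := by
      field_simp
      ring
    rw [e1, Real.div_rpow hn hn1.le, div_le_iff₀ (by positivity)] at hb
    have e2 : ((n : ℝ) + 1) ^ (-u) = ((n : ℝ) + 1) ^ (1 - u) / ((n : ℝ) + 1) := by
      rw [show -u = (1 - u) - 1 by ring, Real.rpow_sub_one hn1.ne']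
    have e3 : ((n + 1 : ℕ) : ℝ) = (n : ℝ) + 1 := by push_cast; ring
    rw [e3]
    have h5 : (n : ℝ) ^ (1 - u) / (1 - u) ≤
        ((n : ℝ) + 1) ^ (1 - u) / (1 - u) - ((n : ℝ) + 1) ^ (1 - u) / ((n : ℝ) + 1) := by
      rw [div_le_iff₀ hu1]
      refine hb.trans (le_of_eq ?_)
      field_simp
      ring
    rw [e2]
    linarith

/-- `∑_{j<n} (|i-j|+1)^(-u) ≤ 2 n^(1-u)/(1-u)` -/
theorem sum_dist_rpow_le {u : ℝ} (hu0 : 0 ≤ u) (hu : u < 1) {n i : ℕ} (hi : i < n) :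
    ∑ j ∈ range n, ((Nat.dist i j : ℝ) + 1) ^ (-u) ≤ 2 * ((n : ℝ) ^ (1 - u) / (1 - u)) := by
  have h := sum_rpow_le hu0 hu n
  have hnn : ∀ d : ℕ, (0 : ℝ) ≤ ((d : ℝ) + 1) ^ (-u) := fun d => by positivity
  have h1 : ∑ j ∈ (range n).filter (fun j => j ≤ i), ((Nat.dist i j : ℝ) + 1) ^ (-u) ≤
      ∑ d ∈ range n, ((d : ℝ) + 1) ^ (-u) := by
    have e : ∑ j ∈ (range n).filter (fun j => j ≤ i), ((Nat.dist i j : ℝ) + 1) ^ (-u) =
        ∑ d ∈ ((range n).filter (fun j => j ≤ i)).image (fun j => i - j),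
          ((d : ℝ) + 1) ^ (-u) := by
      rw [sum_image]
      · refine sum_congr rfl fun j hj => ?_
        rw [mem_filter] at hj
        rw [Nat.dist_eq_sub_of_le_right hj.2]
      · intro x hx y hy hxy
        simp only [coe_filter, Set.mem_ofPred_eq, mem_range] at hx hy
        have hxy' : i - x = i - y := hxy
        omega
    rw [e]
    refine sum_le_sum_of_subset_of_nonneg ?_ fun d _ _ => hnn d
    intro d hd
    rw [mem_image] at hd
    obtain ⟨j, _, rfl⟩ := hd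
    rw [mem_range]
    omega
  have h2 : ∑ j ∈ (range n).filter (fun j => ¬ j ≤ i), ((Nat.dist i j : ℝ) + 1) ^ (-u) ≤
      ∑ d ∈ range n, ((d : ℝ) + 1) ^ (-u) := by
    have e : ∑ j ∈ (range n).filter (fun j => ¬ j ≤ i), ((Nat.dist i j : ℝ) + 1) ^ (-u) =
        ∑ d ∈ ((range n).filter (fun j => ¬ j ≤ i)).image (fun j => j - i),
          ((d : ℝ) + 1) ^ (-u) := by
      rw [sum_image]
      · refine sum_congr rfl fun j hj => ?_
        rw [mem_filter] at hj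
        rw [Nat.dist_eq_sub_of_le (by omega)]
      · intro x hx y hy hxy
        simp only [coe_filter, Set.mem_ofPred_eq, mem_range] at hx hy
        have hxy' : x - i = y - i := hxy
        omega
    rw [e]
    refine sum_le_sum_of_subset_of_nonneg ?_ fun d _ _ => hnn d
    intro d hd
    rw [mem_image] at hd
    obtain ⟨j, hj, rfl⟩ := hd
    rw [mem_filter, mem_range] at hj
    rw [mem_range]
    omega
  rw [← sum_filter_add_sum_filter_not (range n) (fun j => j ≤ i)]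
  linarith

/-- The double sum. -/
theorem sum_sum_dist_rpow_le {u : ℝ} (hu0 : 0 ≤ u) (hu : u < 1) (n : ℕ) :
    ∑ i ∈ range n, ∑ j ∈ range n, ((Nat.dist i j : ℝ) + 1) ^ (-u) ≤
      n * (2 * ((n : ℝ) ^ (1 - u) / (1 - u))) := by
  calc ∑ i ∈ range n, ∑ j ∈ range n, ((Nat.dist i j : ℝ) + 1) ^ (-u)
      ≤ ∑ _i ∈ range n, 2 * ((n : ℝ) ^ (1 - u) / (1 - u)) :=
        sum_le_sum fun i hi => sum_dist_rpow_le hu0 hu (mem_range.1 hi)
    _ = n * (2 * ((n : ℝ) ^ (1 - u) / (1 - u))) := by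
        rw [sum_const, card_range, nsmul_eq_mul]

/-- **Plates touched from both sides.** `A i` (decided by `E1`), `B i` (decided by `E2`) : plate `i`
is touched by an arm on the left, on the right; `C i` (decided by `E3`) : the plate is white. -/
theorem moment_touch {α : Type*} [DecidableEq α] {q : α → ℝ} (hq : Wt q)
    {E E1 E2 E3 : Finset α} (h1 : E1 ⊆ E) (h2 : E2 ⊆ E) (h3 : E3 ⊆ E)
    (h12 : Disjoint E1 E2) (h13 : Disjoint E1 E3) (h23 : Disjoint E2 E3)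
    {s a M p0 : ℝ} (hs0 : 0 ≤ s) (hs : 2 * s < 1) (ha : 0 ≤ a) (hM : 0 < M) (hp : 0 ≤ p0)
    {n : ℕ} (hn : 1 ≤ n) (A B C : ℕ → Finset α → Prop)
    (hA : ∀ i, i < n → a * (n : ℝ) ^ (-s) ≤ PQ q E1 (A i))
    (hB : ∀ i, i < n → a * (n : ℝ) ^ (-s) ≤ PQ q E2 (B i))
    (hC : ∀ i, i < n → p0 ≤ PQ q E3 (C i))
    (hAA : ∀ i j, i < n → j < n → PQ q E1 (fun ω => A i ω ∧ A j ω) ≤
      M * ((Nat.dist i j : ℝ) + 1) ^ (-s) * (n : ℝ) ^ (-s))
    (hBB : ∀ i j, i < n → j < n → PQ q E2 (fun ω => B i ω ∧ B j ω) ≤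
      M * ((Nat.dist i j : ℝ) + 1) ^ (-s) * (n : ℝ) ^ (-s)) :
    (p0 * a ^ 2) ^ 2 * (1 - 2 * s) / (2 * M ^ 2) ≤
      PQ q E (fun ω => ∃ i, i < n ∧ A i (ω ∩ E1) ∧ B i (ω ∩ E2) ∧ C i (ω ∩ E3)) := by
  have hn0 : (0 : ℝ) < n := by exact_mod_cast hn
  set D : ℕ → Finset α → Prop := fun i ω => A i (ω ∩ E1) ∧ B i (ω ∩ E2) ∧ C i (ω ∩ E3) with hD
  have hX : (0 : ℝ) < (n : ℝ) ^ (-s) := by positivity
  -- first moment
  have one : ∀ i ∈ range n, p0 * a ^ 2 * ((n : ℝ) ^ (-s) * (n : ℝ) ^ (-s)) ≤ PQ q E (D i) := by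
    intro i hi
    rw [mem_range] at hi
    rw [hD]
    simp only
    rw [PQ_indep3 h1 h2 h3 h12 h13 h23]
    have a1 := hA i hi
    have a2 := hB i hi
    have a3 := hC i hi
    have b1 : 0 ≤ a * (n : ℝ) ^ (-s) := by positivity
    calc p0 * a ^ 2 * ((n : ℝ) ^ (-s) * (n : ℝ) ^ (-s))
        = (a * (n : ℝ) ^ (-s)) * (a * (n : ℝ) ^ (-s)) * p0 := by ring
      _ ≤ PQ q E1 (A i) * PQ q E2 (B i) * PQ q E3 (C i) := by
        refine mul_le_mul (mul_le_mul a1 a2 b1 (b1.trans a1)) a3 hp ?_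
        exact mul_nonneg (b1.trans a1) (b1.trans a2)
  set m : ℝ := n * (p0 * a ^ 2 * ((n : ℝ) ^ (-s) * (n : ℝ) ^ (-s))) with hm
  have hm1 : m ≤ ∑ i ∈ range n, PQ q E (D i) := by
    calc m = ∑ _i ∈ range n, p0 * a ^ 2 * ((n : ℝ) ^ (-s) * (n : ℝ) ^ (-s)) := by
          rw [sum_const, card_range, nsmul_eq_mul]
      _ ≤ _ := sum_le_sum one
  have hm0 : 0 ≤ m := by rw [hm]; positivity
  -- second moment
  have two : ∀ i ∈ range n, ∀ j ∈ range n, PQ q E (fun ω => D i ω ∧ D j ω) ≤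
      M ^ 2 * ((n : ℝ) ^ (-s) * (n : ℝ) ^ (-s)) * ((Nat.dist i j : ℝ) + 1) ^ (-(2 * s)) := by
    intro i hi j hj
    rw [mem_range] at hi hj
    have e1 : PQ q E (fun ω => D i ω ∧ D j ω) ≤
        PQ q E (fun ω => (fun η => A i η ∧ A j η) (ω ∩ E1) ∧
          (fun η => B i η ∧ B j η) (ω ∩ E2)) :=
      PQ_mono hq fun ω _ h => ⟨⟨h.1.1, h.2.1⟩, ⟨h.1.2.1, h.2.2.1⟩⟩
    refine e1.trans ?_
    rw [PQ_indep h1 h2 h12 (fun η => A i η ∧ A j η) (fun η => B i η ∧ B j η)]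
    have hd0 : (0 : ℝ) < (Nat.dist i j : ℝ) + 1 := by positivity
    have e2 : ((Nat.dist i j : ℝ) + 1) ^ (-(2 * s)) =
        ((Nat.dist i j : ℝ) + 1) ^ (-s) * ((Nat.dist i j : ℝ) + 1) ^ (-s) := by
      rw [← Real.rpow_add hd0]
      congr 1
      ring
    rw [e2]
    calc PQ q E1 (fun η => A i η ∧ A j η) * PQ q E2 (fun η => B i η ∧ B j η)
        ≤ (M * ((Nat.dist i j : ℝ) + 1) ^ (-s) * (n : ℝ) ^ (-s)) *
          (M * ((Nat.dist i j : ℝ) + 1) ^ (-s) * (n : ℝ) ^ (-s)) :=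
          mul_le_mul (hAA i j hi hj) (hBB i j hi hj) (PQ_nonneg hq _ _) (by positivity)
      _ = _ := by ring
  have hu1 : 0 < 1 - 2 * s := by linarith
  set V : ℝ := M ^ 2 * ((n : ℝ) ^ (-s) * (n : ℝ) ^ (-s)) *
    (n * (2 * ((n : ℝ) ^ (1 - 2 * s) / (1 - 2 * s)))) with hVdef
  have hV0 : 0 < V := by rw [hVdef]; positivity
  have hV : ∑ i ∈ range n, ∑ j ∈ range n, PQ q E (fun ω => D i ω ∧ D j ω) ≤ V := by
    calc ∑ i ∈ range n, ∑ j ∈ range n, PQ q E (fun ω => D i ω ∧ D j ω)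
        ≤ ∑ i ∈ range n, ∑ j ∈ range n, M ^ 2 * ((n : ℝ) ^ (-s) * (n : ℝ) ^ (-s)) *
            ((Nat.dist i j : ℝ) + 1) ^ (-(2 * s)) :=
          sum_le_sum fun i hi => sum_le_sum fun j hj => two i hi j hj
      _ = M ^ 2 * ((n : ℝ) ^ (-s) * (n : ℝ) ^ (-s)) *
            ∑ i ∈ range n, ∑ j ∈ range n, ((Nat.dist i j : ℝ) + 1) ^ (-(2 * s)) := by
          rw [mul_sum]
          exact sum_congr rfl fun i _ => by rw [mul_sum]
      _ ≤ V := by
          rw [hVdef]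
          exact mul_le_mul_of_nonneg_left
            (sum_sum_dist_rpow_le (by linarith) (by linarith) n) (by positivity)
  have key := second_moment hq E (range n) D hm0 hm1 hV0 hV
  have e3 : m ^ 2 / V = (p0 * a ^ 2) ^ 2 * (1 - 2 * s) / (2 * M ^ 2) := by
    have e4 : (n : ℝ) ^ (1 - 2 * s) = n * ((n : ℝ) ^ (-s) * (n : ℝ) ^ (-s)) := by
      rw [← Real.rpow_add hn0, show (1 : ℝ) - 2 * s = 1 + (-s + -s) by ring,
        Real.rpow_add hn0, Real.rpow_one]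
    rw [hVdef, hm, e4]
    field_simp
  rw [e3] at key
  refine key.trans (PQ_mono hq fun ω _ h => ?_)
  obtain ⟨i, hi, hh⟩ := h
  exact ⟨i, mem_range.1 hi, hh⟩

end Pool.Agent.H91.W
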