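import Mathlib
import Pool.Agent.H60.Q1.Ann
import Pool.Agent.H99.NC.RingP
import Pool.Agent.H60.Q1.Half

set_option autoImplicit false
open Finset

/-! # Route W, W-D, D4: staircase banks, planarity, half rings, U-paths

Conventions of `H75/Perc/Rect` and `H60/Q1/Ann`: vertices `v`, labels `l = u + v` of edges. Tile
`(i,j)` is the label `(i+j+1, i-j)`.

* `Stair k N Q E` : inside `Q` the label set `E` is the part above a monotone staircase which runs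
  between the diagonals `k` and `k + N`.
* `PLS` : planarity. A path of `E` in a half annulus from bank to bank meets every radial path of `E`.
* `Arc` : open half ring in `E`; `arc_of`, `arc_prob`.
* `u_path` : the increasing event `FF` of three half rings; any two vertices in the two windows with
  arms in `E` are connected in `E` inside the annulus. `FF_prob` : probability bounded below.
-/

namespace Pool.Agent.H91.W

open Pool.Agent.H75.Perc Pool.Agent.H75.TwoArm Pool.Agent.H75.Four Pool.Agent.H60.Q1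
open Pool.Agent.H99.NC

/-- Inside `Q` the set `E` of labels is the part above a monotone staircase. -/
structure Stair (k N : ℤ) (Q E : Finset (ℤ × ℤ)) : Prop where
  lo : ∀ l ∈ E, l ∈ Q → 2 * k + 1 ≤ l.1 + l.2
  up : ∀ l ∈ Q, 2 * (k + N) + 1 ≤ l.1 + l.2 → l ∈ E
  cl : ∀ l ∈ E, l ∈ Q → ∀ l' ∈ Q, |l'.2 - l.2| ≤ l'.1 - l.1 → l' ∈ E

/-- the label `e` is incident to the vertex `p` -/
def At (e p : ℤ × ℤ) : Prop :=
  (e.2 = 2 * p.2 ∧ (e.1 = 2 * p.1 + 1 ∨ e.1 = 2 * p.1 - 1)) ∨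
    (e.1 = 2 * p.1 ∧ (e.2 = 2 * p.2 + 1 ∨ e.2 = 2 * p.2 - 1))

/-- bank vertex: some label of `Q` at `p` is not in `E` -/
def Bk (Q E : Finset (ℤ × ℤ)) (p : ℤ × ℤ) : Prop := ∃ e, e ∈ Q ∧ e ∉ E ∧ At e p

/-- labels of the annulus -/
noncomputable def Rg (z : ℤ × ℤ) (a b : ℤ) : Finset (ℤ × ℤ) := BR z b \ BR z a

lemma mem_BR {z : ℤ × ℤ} {r : ℤ} {l : ℤ × ℤ} : l ∈ BR z r ↔
    (2 * (z.1 - r) ≤ l.1 ∧ l.1 ≤ 2 * (z.1 + r)) ∧ (2 * (z.2 - r) ≤ l.2 ∧ l.2 ≤ 2 * (z.2 + r)) ∧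
      (l.1 + l.2) % 2 = 1 := by
  unfold BR; rw [mem_Bx]

lemma mem_Rg {z : ℤ × ℤ} {a b : ℤ} {l : ℤ × ℤ} : l ∈ Rg z a b ↔ l ∈ BR z b ∧ l ∉ BR z a := by
  unfold Rg; rw [mem_sdiff]

lemma BR_mono {z : ℤ × ℤ} {a b : ℤ} (h : a ≤ b) : BR z a ⊆ BR z b := by
  unfold BR
  exact Bx_sub (by omega) (by omega) (by omega) (by omega)

lemma Ad.at' {η : Finset (ℤ × ℤ)} {u v : ℤ × ℤ} (h : Ad η u v) : At (u + v) u ∧ At (u + v) v := by
  have h1 := unit_cases h.1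
  unfold At
  simp only [Prod.fst_add, Prod.snd_add]
  omega

/-- every vertex of a nontrivial cluster touches a label -/
lemma Co.touch {η : Finset (ℤ × ℤ)} {u v : ℤ × ℤ} (h : Co η u v) (hne : u ≠ v) {w : ℤ × ℤ}
    (hw : Co η u w) : ∃ e ∈ η, At e w := by
  rcases Relation.ReflTransGen.cases_tail hw with h1 | ⟨c, -, h1⟩
  · subst h1
    rcases Relation.ReflTransGen.cases_head h with h2 | ⟨c, h2, -⟩
    · exact absurd h2 hne
    · exact ⟨_, h2.2, (Ad.at' h2).1⟩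
  · exact ⟨_, h1.2, (Ad.at' h1).2⟩

/-- the segment from a bank vertex to the left touches no label of `E` -/
lemma Stair.ext {k N : ℤ} {Q E : Finset (ℤ × ℤ)} (hS : Stair k N Q E) {p : ℤ × ℤ}
    (hp : Bk Q E p) {w : ℤ × ℤ} (hw2 : w.2 = p.2) (hw1 : w.1 < p.1) {e : ℤ × ℤ} (he : e ∈ E)
    (heQ : e ∈ Q) (hew : At e w) : False := by
  obtain ⟨e0, h1, h2, h3⟩ := hp
  refine h2 (hS.cl e he heQ e0 h1 ?_)
  unfold At at hew h3
  rw [abs_le]
  omega

lemma Bk.height {k N : ℤ} {Q E : Finset (ℤ × ℤ)} (hS : Stair k N Q E) {p : ℤ × ℤ}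
    (hp : Bk Q E p) : p.1 + p.2 ≤ k + N := by
  obtain ⟨e, h1, h2, h3⟩ := hp
  by_contra hcon
  refine h2 (hS.up e h1 ?_)
  unfold At at h3
  omega

lemma near_far {z : ℤ × ℤ} {ρ R : ℤ} (h : ρ < R) {u v : ℤ × ℤ} (hu : Near z ρ u) (hv : Far z R v) :
    u ≠ v := by
  rintro rfl
  unfold Near at hu
  unfold Far at hv
  omega

/-- the part of a path between the last visit to the inner box and the outer box -/
lemma radial {θ : Finset (ℤ × ℤ)} {z : ℤ × ℤ} {ρ R : ℤ} (hρR : ρ < R) {u v : ℤ × ℤ}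
    (h : Co θ u v) (hu : Near z ρ u) (hv : Far z R v) :
    ∃ u' v', Near z ρ u' ∧ Far z R v' ∧ Co (θ ∩ BR z R) u u' ∧ Co (θ ∩ Rg z ρ R) u' v' := by
  obtain ⟨v', hv', h1⟩ := open_exit (o := z) (M := R) h
    (by unfold Near at hu; omega) (by unfold Far at hv; exact hv)
  have h1' : Co (θ ∩ BR z R) u v' := h1
  obtain ⟨w, w', hw, hw', hww, hX, hc⟩ := exit_co (X := fun w => ¬ Near z ρ w) h1'.symm
    (by
      intro hn
      exact near_far hρR hn hv' rfl)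
    (by simpa using hu)
  rw [not_not] at hw'
  have hstep : ∀ a b : ℤ × ℤ, Ad (θ ∩ BR z R) a b → (¬ Near z ρ a ∨ ¬ Near z ρ b) →
      Ad (θ ∩ Rg z ρ R) a b := by
    intro a b hab hn
    refine ⟨hab.1, ?_⟩
    obtain ⟨h2, h3⟩ := mem_inter.1 hab.2
    refine mem_inter.2 ⟨h2, mem_Rg.2 ⟨h3, ?_⟩⟩
    intro h4
    have h5 := unit_cases hab.1
    rw [mem_BR] at h4
    simp only [Prod.fst_add, Prod.snd_add] at h4
    unfold Near at hn
    rw [abs_le, abs_le, abs_le, abs_le] at hn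
    omega
  have key : ∀ x, CoX (θ ∩ BR z R) (fun w => ¬ Near z ρ w) v' x → Co (θ ∩ Rg z ρ R) v' x := by
    intro x hx
    induction hx with
    | refl => exact Co.refl _ _
    | tail _ hbc ih => exact ih.tail (hstep _ _ hbc.1 (Or.inr hbc.2))
  refine ⟨w', v', hw', hv', h1'.trans hc, ?_⟩
  exact Co.symm ((key w hX).tail (hstep _ _ hww (Or.inl hw)))

/-- **planarity in a staircase domain** -/
theorem PLS {k N : ℤ} {Q E : Finset (ℤ × ℤ)} (hS : Stair k N Q E) {z : ℤ × ℤ} {ρ R : ℤ}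
    (hz : z.1 + z.2 = k) (hρ : 1 ≤ ρ) (hN : 0 ≤ N) (hR : ρ + N < R) (hQ : BR z R ⊆ Q)
    {η θ : Finset (ℤ × ℤ)} (hη : η ⊆ E) (hηA : η ⊆ Rg z (ρ + N) R) {p p' : ℤ × ℤ}
    (hp : Bk Q E p) (hp' : Bk Q E p') (hpl : p.1 < z.1) (hpr : z.1 < p'.1) (hpp : Co η p p')
    (hθ : θ ⊆ E) {u v : ℤ × ℤ} (huv : Co θ u v) (hu : Near z ρ u) (hv : Far z R v) :
    ∃ w, Co η p w ∧ Co (θ ∩ BR z R) u w := by
  obtain ⟨u', v', hu', hv', h1, h2⟩ := radial (by omega) huv hu hv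
  have hne : u' ≠ v' := near_far (by omega) hu' hv'
  have hpne : p ≠ p' := by rintro rfl; omega
  -- the radial path
  have hθA : θ ∩ Rg z ρ R ⊆ AL 1 z ρ R := by
    intro l hl
    obtain ⟨h3, h4⟩ := mem_inter.1 hl
    obtain ⟨h5, h6⟩ := mem_Rg.1 h4
    have h7 := hS.lo l (hθ h3) (hQ h5)
    rw [mem_BR] at h5 h6
    rw [mem_AL]
    exact ⟨⟨h5, by omega⟩, h6⟩
  have hBr := (Co.reg (Or.inr rfl) hθA h2 hne).2
  -- the lateral path
  have hηA' : η ⊆ AL 1 z (ρ + N) R := by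
    intro l hl
    obtain ⟨h5, h6⟩ := mem_Rg.1 (hηA hl)
    have h7 := hS.lo l (hη hl) (hQ h5)
    rw [mem_BR] at h5 h6
    rw [mem_AL]
    exact ⟨⟨h5, by omega⟩, h6⟩
  obtain ⟨rp, hAr0⟩ := Co.reg (Or.inr rfl) hηA' hpp hpne
  have rp' := hAr0 p' hpp
  have hgt := hp.height hS
  have hgt' := hp'.height hS
  set A : ℤ × ℤ → Prop := fun w => Co η p w ∨ (w.2 = p.2 ∧ w.1 < p.1 ∧ k ≤ w.1 + w.2) ∨
    (w.2 = p'.2 ∧ w.1 < p'.1 ∧ k ≤ w.1 + w.2) with hA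
  unfold Reg ht at rp rp'
  simp only [abs_le, le_abs] at rp rp'
  have hp2' : p'.2 ≤ z.2 - ρ := by omega
  have hAr : ∀ w, A w → Reg 1 z ρ R w := by
    rintro w (h | h | h)
    · have h3 := hAr0 w h
      unfold Reg ht at h3 ⊢
      simp only [abs_le, le_abs] at h3 ⊢
      omega
    · unfold Reg ht
      simp only [abs_le, le_abs]
      omega
    · unfold Reg ht
      simp only [abs_le, le_abs]
      omega
  have hpath : Pth A (k - p.2, p.2) (k - p'.2, p'.2) := by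
    have s1 : Pth A (k - p.2, p.2) (p.1, p.2) := line_h (by omega) fun t h3 h4 => by
      rcases lt_or_eq_of_le h4 with h5 | h5
      · exact Or.inr (Or.inl ⟨rfl, h5, by simp only; omega⟩)
      · rw [h5]; exact Or.inl (Co.refl _ _)
    have s2 : Pth A p p' := (Co.pth hpp).mono fun w hw => Or.inl hw
    have s3 : Pth A (k - p'.2, p'.2) (p'.1, p'.2) := line_h (by omega) fun t h3 h4 => by
      rcases lt_or_eq_of_le h4 with h5 | h5
      · exact Or.inr (Or.inr ⟨rfl, h5, by simp only; omega⟩)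
      · rw [h5]; exact Or.inl hpp
    have s4 := s3.symm (by
      rcases eq_or_lt_of_le (show k - p'.2 ≤ p'.1 by omega) with h5 | h5
      · rw [h5]; exact Or.inl hpp
      · exact Or.inr (Or.inr ⟨rfl, h5, by simp only; omega⟩))
    exact (s1.trans s2).trans s4
  have hA1 : A (k - p.2, p.2) := by
    rcases eq_or_lt_of_le (show k - p.2 ≤ p.1 by omega) with h5 | h5
    · rw [h5]; exact Or.inl (Co.refl _ _)
    · exact Or.inr (Or.inl ⟨rfl, h5, by simp only; omega⟩)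
  obtain ⟨w, hw1, hw2⟩ := PL (κ := 1) (Or.inr rfl) hρ hpath hA1 (Co.pth h2) (Co.refl _ _) hAr hBr
    (by unfold WS ht; simp only; omega) (by unfold WS ht; simp only; omega) hu' hv'
  have hEQ : ∃ e ∈ E, e ∈ Q ∧ At e w := by
    obtain ⟨e, he, hew⟩ := Co.touch h2 hne hw2
    obtain ⟨h3, h4⟩ := mem_inter.1 he
    exact ⟨e, hθ h3, hQ (mem_Rg.1 h4).1, hew⟩
  obtain ⟨e, he, heQ, hew⟩ := hEQ
  rcases hw1 with h | h | h
  · refine ⟨w, h, h1.trans (hw2.mono ?_)⟩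
    exact inter_subset_inter_left sdiff_subset
  · exact (hS.ext hp h.1 h.2.1 he heQ hew).elim
  · exact (hS.ext hp' h.1 h.2.1 he heQ hew).elim

/-- a path stopped at the bank -/
lemma stop {Q E η : Finset (ℤ × ℤ)} (hη : η ⊆ Q) {y t : ℤ × ℤ} (h : Co η y t) (hy : ¬ Bk Q E y)
    (ht : Bk Q E t) : ∃ p, Bk Q E p ∧ Co (η ∩ E) y p := by
  obtain ⟨c, c', hc, hc', hcc, hX, -⟩ := exit_co (X := fun v => ¬ Bk Q E v) h hy (by simpa using ht)
  rw [not_not] at hc'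
  have hstep : ∀ a b : ℤ × ℤ, Ad η a b → (¬ Bk Q E a ∨ ¬ Bk Q E b) → Ad (η ∩ E) a b := by
    intro a b hab hn
    refine ⟨hab.1, mem_inter.2 ⟨hab.2, ?_⟩⟩
    by_contra h1
    rcases hn with h2 | h2
    · exact h2 ⟨_, hη hab.2, h1, (Ad.at' hab).1⟩
    · exact h2 ⟨_, hη hab.2, h1, (Ad.at' hab).2⟩
  have key : ∀ x, CoX η (fun v => ¬ Bk Q E v) y x → Co (η ∩ E) y x := by
    intro x hx
    induction hx with
    | refl => exact Co.refl _ _
    | tail _ hbc ih => exact ih.tail (hstep _ _ hbc.1 (Or.inr hbc.2))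
  exact ⟨c', hc', (key c hX).tail (hstep _ _ hcc (Or.inl hc))⟩

/-- open half ring of `E`, between the boxes of radius `a - 1` and `b` about the wall point `z` -/
def Arc (Q E : Finset (ℤ × ℤ)) (N : ℤ) (z : ℤ × ℤ) (a b : ℤ) (ω : Finset (ℤ × ℤ)) : Prop :=
  ∃ p p', Bk Q E p ∧ Bk Q E p' ∧ p.1 ≤ z.1 - a + N ∧ z.1 + a ≤ p'.1 ∧
    Co (ω ∩ E ∩ Rg z (a - 1) b) p p'

lemma Arc_inc {Q E : Finset (ℤ × ℤ)} {N : ℤ} {z : ℤ × ℤ} {a b : ℤ} : Inc (Arc Q E N z a b) := by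
  rintro ω ω' h ⟨p, p', h1, h2, h3, h4, h5⟩
  exact ⟨p, p', h1, h2, h3, h4,
    h5.mono (inter_subset_inter_right (inter_subset_inter_right h))⟩

lemma Arc_local {Q E : Finset (ℤ × ℤ)} {N : ℤ} {z : ℤ × ℤ} {a b : ℤ} {ω : Finset (ℤ × ℤ)} :
    Arc Q E N z a b ω ↔ Arc Q E N z a b (ω ∩ E) := by
  unfold Arc
  rw [inter_assoc ω E E, inter_self]

/-- half rings from crossings of two rectangles -/
lemma arc_of {k N : ℤ} {Q E : Finset (ℤ × ℤ)} (hS : Stair k N Q E) {z : ℤ × ℤ} {a b : ℤ}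
    (hz : z.1 + z.2 = k) (hN : 0 ≤ N) (ha : N < a) (hab : a < b) (hQ : BR z (b + 1) ⊆ Q)
    {ω : Finset (ℤ × ℤ)}
    (hT : HC (z.1 - b) (z.1 + b) (z.2 + a) (z.2 + b) ω)
    (hR : VC (z.1 + a) (z.1 + b) (z.2 - b) (z.2 + b) ω) : Arc Q E N z a b ω := by
  obtain ⟨t, t', t1, t2, t3, t4⟩ := hT
  obtain ⟨r, r', r1, r2, r3, r4⟩ := hR
  set BT := Bx (z.1 - b) (z.1 + b) (z.2 + a) (z.2 + b) with hBT
  set BV := Bx (z.1 + a) (z.1 + b) (z.2 - b) (z.2 + b) with hBV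
  obtain ⟨y, y1, y2⟩ := cross_co (a := z.1 - b) (b := z.1 + b) (c := z.2 - b)
    (d := z.2 + b) (ω1 := ω ∩ BT) (ω2 := ω ∩ BV)
    (inter_subset_right.trans (Bx_sub le_rfl le_rfl (by omega) le_rfl))
    (inter_subset_right.trans (Bx_sub (by omega) le_rfl le_rfl le_rfl))
    (by unfold inB at t1 ⊢; omega) (by unfold inB at r1 ⊢; omega)
    t4 r4 t2 t3 r2 r3
  have hyT : inB (z.1 - b) (z.1 + b) (z.2 + a) (z.2 + b) y := y1.inB inter_subset_right t1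
  have hyR : inB (z.1 + a) (z.1 + b) (z.2 - b) (z.2 + b) y := y2.inB inter_subset_right r1
  have hyB : ¬ Bk Q E y := by
    intro h
    have := h.height hS
    unfold inB at hyT hyR
    omega
  have hBk : ∀ v : ℤ × ℤ, inB (z.1 - b) (z.1 + b) (z.2 - b) (z.2 + b) v → v.1 + v.2 ≤ k →
      Bk Q E v := by
    intro v hv hvk
    unfold inB at hv
    refine ⟨(2 * v.1 - 1, 2 * v.2), hQ ?_, ?_, ?_⟩
    · rw [mem_BR]
      simp only
      omega
    · intro h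
      have := hS.lo _ h (hQ (by
        rw [mem_BR]
        simp only
        omega))
      simp only at this
      omega
    · exact Or.inl ⟨rfl, Or.inr rfl⟩
  have hTQ : ω ∩ BT ⊆ Q := by
    intro l hl
    have h1 := (mem_inter.1 hl).2
    rw [hBT, mem_Bx] at h1
    refine hQ ?_
    rw [mem_BR]
    omega
  have hVQ : ω ∩ BV ⊆ Q := by
    intro l hl
    have h1 := (mem_inter.1 hl).2
    rw [hBV, mem_Bx] at h1
    refine hQ ?_
    rw [mem_BR]
    omega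
  obtain ⟨p, hp, hyp⟩ := stop hTQ y1.symm hyB (hBk t (by unfold inB at t1 ⊢; omega)
    (by unfold inB at t1; omega))
  obtain ⟨p', hp', hyp'⟩ := stop hVQ y2.symm hyB (hBk r (by unfold inB at r1 ⊢; omega)
    (by unfold inB at r1; omega))
  have ip : inB (z.1 - b) (z.1 + b) (z.2 + a) (z.2 + b) p :=
    hyp.inB (inter_subset_left.trans inter_subset_right) hyT
  have ip' : inB (z.1 + a) (z.1 + b) (z.2 - b) (z.2 + b) p' :=
    hyp'.inB (inter_subset_left.trans inter_subset_right) hyR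
  have hgt := hp.height hS
  unfold inB at ip ip'
  refine ⟨p, p', hp, hp', by omega, by omega, Co.trans (hyp.symm.mono ?_) (hyp'.mono ?_)⟩
  · intro l hl
    simp only [mem_inter] at hl ⊢
    refine ⟨⟨hl.1.1, hl.2⟩, mem_Rg.2 ?_⟩
    have h1 := hl.1.2
    rw [hBT, mem_Bx] at h1
    rw [mem_BR, mem_BR]
    omega
  · intro l hl
    simp only [mem_inter] at hl ⊢
    refine ⟨⟨hl.1.1, hl.2⟩, mem_Rg.2 ?_⟩
    have h1 := hl.1.2
    rw [hBV, mem_Bx] at h1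
    rw [mem_BR, mem_BR]
    omega

/-- **half rings in staircase domains**, all densities at least one half -/
theorem arc_prob (m : ℕ) : ∃ c : ℝ, 0 < c ∧ ∀ q : ℤ × ℤ → ℝ, Qh q → ∀ (k N : ℤ)
    (Q E : Finset (ℤ × ℤ)), Stair k N Q E → ∀ (z : ℤ × ℤ) (a b : ℤ), z.1 + z.2 = k → 0 ≤ N →
    N < a → a < b → 2 * b ≤ m * (b - a + 1) → BR z (b + 1) ⊆ Q →
    c ≤ PrP q E (Arc Q E N z a b) := by
  obtain ⟨c, hc, h⟩ := rsw_q m
  refine ⟨c * c, by positivity, fun q hq k N Q E hS z a b hz hN ha hab hm hQ => ?_⟩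
  rw [← PrP_local (E := E ∪ BR z b) subset_union_left fun ω _ => Arc_local]
  have h1 := (h q hq (E ∪ BR z b) (z.1 - b) (z.1 + b) (z.2 + a) (z.2 + b)
    (by omega) (by omega) ((Bx_sub (by omega) le_rfl (by omega) le_rfl).trans
      subset_union_right)).1 (by
        rw [show z.1 + b - (z.1 - b) = 2 * b by ring,
          show z.2 + b - (z.2 + a) + 1 = b - a + 1 by ring]
        exact hm)
  have h2 := (h q hq (E ∪ BR z b) (z.1 + a) (z.1 + b) (z.2 - b) (z.2 + b)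
    (by omega) (by omega) ((Bx_sub (by omega) le_rfl (by omega) le_rfl).trans
      subset_union_right)).2 (by
        rw [show z.2 + b - (z.2 - b) = 2 * b by ring,
          show z.1 + b - (z.1 + a) + 1 = b - a + 1 by ring]
        exact hm)
  have e1 := PrP_harris hq.pb (E ∪ BR z b)
    (HC_inc (z.1 - b) (z.1 + b) (z.2 + a) (z.2 + b))
    (VC_inc (z.1 + a) (z.1 + b) (z.2 - b) (z.2 + b))
  have e2 := mul_le_mul h1 h2 hc.le (hc.le.trans h1)
  exact (e2.trans e1).trans (PrP_mono hq.pb fun ω _ hh =>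
    arc_of hS hz hN ha hab hQ hh.1 hh.2)

/-- the upper and the lower window -/
def zU (z : ℤ × ℤ) (u : ℤ) : ℤ × ℤ := (z.1 - 16 * u, z.2 + 16 * u)

def zL (z : ℤ × ℤ) (u : ℤ) : ℤ × ℤ := (z.1 + 16 * u, z.2 - 16 * u)

/-- the event of three half rings -/
def FF (Q E : Finset (ℤ × ℤ)) (N : ℤ) (z : ℤ × ℤ) (u : ℤ) (ω : Finset (ℤ × ℤ)) : Prop :=
  Arc Q E N z (15 * u) (17 * u) ω ∧ Arc Q E N (zU z u) (5 * u) (6 * u) ω ∧
    Arc Q E N (zL z u) (5 * u) (6 * u) ω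

lemma FF_inc {Q E : Finset (ℤ × ℤ)} {N : ℤ} {z : ℤ × ℤ} {u : ℤ} : Inc (FF Q E N z u) :=
  fun _ _ h h' => ⟨Arc_inc _ _ h h'.1, Arc_inc _ _ h h'.2.1, Arc_inc _ _ h h'.2.2⟩

/-- the arm of a vertex of the windows -/
def ArmE (E : Finset (ℤ × ℤ)) (u : ℤ) (v : ℤ × ℤ) (ω : Finset (ℤ × ℤ)) : Prop :=
  ∃ w, Far v (9 * u) w ∧ Co (ω ∩ E) v w

lemma ArmE_inc {E : Finset (ℤ × ℤ)} {u : ℤ} {v : ℤ × ℤ} : Inc (ArmE E u v) := by
  rintro ω ω' h ⟨w, h1, h2⟩
  exact ⟨w, h1, h2.mono (inter_subset_inter_right h)⟩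

/-- **U-paths** -/
theorem u_path {k N : ℤ} {Q E : Finset (ℤ × ℤ)} (hS : Stair k N Q E) {z : ℤ × ℤ} {u : ℤ}
    (hz : z.1 + z.2 = k) (hN : 0 ≤ N) (hNu : N ≤ u) (hu : 1 ≤ u) (hQ : BR z (22 * u + 1) ⊆ Q)
    {ω : Finset (ℤ × ℤ)} (hF : FF Q E N z u ω) {v v' : ℤ × ℤ} (hv : Near (zU z u) (3 * u) v)
    (hv' : Near (zL z u) (3 * u) v') (ha : ArmE E u v ω) (ha' : ArmE E u v' ω) :
    Co (ω ∩ E ∩ Rg z (10 * u - 1) (22 * u)) v v' := by
  obtain ⟨⟨g, g', hg, hg', hg1, hg2, hgg⟩, ⟨p, p', hp, hp', hp1, hp2, hpp⟩,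
    ⟨r, r', hr, hr', hr1, hr2, hrr⟩⟩ := hF
  obtain ⟨w, hw, hvw⟩ := ha
  obtain ⟨w', hw', hvw'⟩ := ha'
  have hU1 : (zU z u).1 = z.1 - 16 * u := rfl
  have hU2 : (zU z u).2 = z.2 + 16 * u := rfl
  have hL1 : (zL z u).1 = z.1 + 16 * u := rfl
  have hL2 : (zL z u).2 = z.2 - 16 * u := rfl
  have hzU : (zU z u).1 + (zU z u).2 = k := by rw [hU1, hU2]; omega
  have hzL : (zL z u).1 + (zL z u).2 = k := by rw [hL1, hL2]; omega
  have hQU : BR (zU z u) (6 * u) ⊆ Q := by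
    refine subset_trans ?_ hQ
    intro l hl
    rw [mem_BR] at hl ⊢
    rw [hU1, hU2] at hl
    omega
  have hQL : BR (zL z u) (6 * u) ⊆ Q := by
    refine subset_trans ?_ hQ
    intro l hl
    rw [mem_BR] at hl ⊢
    rw [hL1, hL2] at hl
    omega
  -- the labels
  have sU : ∀ θ : Finset (ℤ × ℤ), θ ⊆ ω ∩ E → θ ∩ BR (zU z u) (6 * u) ⊆
      ω ∩ E ∩ Rg z (10 * u - 1) (22 * u) := by
    intro θ hθ l hl
    obtain ⟨h1, h2⟩ := mem_inter.1 hl
    refine mem_inter.2 ⟨hθ h1, mem_Rg.2 ?_⟩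
    rw [mem_BR] at h2 ⊢
    rw [mem_BR]
    rw [hU1, hU2] at h2
    omega
  have sL : ∀ θ : Finset (ℤ × ℤ), θ ⊆ ω ∩ E → θ ∩ BR (zL z u) (6 * u) ⊆
      ω ∩ E ∩ Rg z (10 * u - 1) (22 * u) := by
    intro θ hθ l hl
    obtain ⟨h1, h2⟩ := mem_inter.1 hl
    refine mem_inter.2 ⟨hθ h1, mem_Rg.2 ?_⟩
    rw [mem_BR] at h2 ⊢
    rw [mem_BR]
    rw [hL1, hL2] at h2
    omega
  have sG : ω ∩ E ∩ Rg z (15 * u - 1) (17 * u) ⊆ ω ∩ E ∩ Rg z (10 * u - 1) (22 * u) := by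
    refine inter_subset_inter_left ?_
    intro l hl
    obtain ⟨h1, h2⟩ := mem_Rg.1 hl
    exact mem_Rg.2 ⟨BR_mono (by omega) h1, fun h3 => h2 (BR_mono (by omega) h3)⟩
  have sP : ω ∩ E ∩ Rg (zU z u) (5 * u - 1) (6 * u) ⊆ ω ∩ E ∩ Rg z (10 * u - 1) (22 * u) := by
    intro l hl
    obtain ⟨h1, h2⟩ := mem_inter.1 hl
    exact sU (ω ∩ E) (Subset.refl _) (mem_inter.2 ⟨h1, (mem_Rg.1 h2).1⟩)
  have sR : ω ∩ E ∩ Rg (zL z u) (5 * u - 1) (6 * u) ⊆ ω ∩ E ∩ Rg z (10 * u - 1) (22 * u) := by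
    intro l hl
    obtain ⟨h1, h2⟩ := mem_inter.1 hl
    exact sL (ω ∩ E) (Subset.refl _) (mem_inter.2 ⟨h1, (mem_Rg.1 h2).1⟩)
  have sPA : ω ∩ E ∩ Rg (zU z u) (5 * u - 1) (6 * u) ⊆ Rg (zU z u) (3 * u + N) (6 * u) := by
    intro l hl
    obtain ⟨h1, h2⟩ := mem_Rg.1 (mem_inter.1 hl).2
    exact mem_Rg.2 ⟨h1, fun h3 => h2 (BR_mono (by omega) h3)⟩
  have sRA : ω ∩ E ∩ Rg (zL z u) (5 * u - 1) (6 * u) ⊆ Rg (zL z u) (3 * u + N) (6 * u) := by
    intro l hl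
    obtain ⟨h1, h2⟩ := mem_Rg.1 (mem_inter.1 hl).2
    exact mem_Rg.2 ⟨h1, fun h3 => h2 (BR_mono (by omega) h3)⟩
  have sE : ∀ s : Finset (ℤ × ℤ), ω ∩ E ∩ s ⊆ E := fun s =>
    inter_subset_left.trans inter_subset_right
  rw [hU1] at hp1 hp2
  rw [hL1] at hr1 hr2
  -- the ends of the big ring
  have hgr : g ≠ g' := by rintro rfl; omega
  have hgA : ω ∩ E ∩ Rg z (15 * u - 1) (17 * u) ⊆ AL 1 z (15 * u - 1) (17 * u) := by
    intro l hl
    obtain ⟨h5, h6⟩ := mem_Rg.1 (mem_inter.1 hl).2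
    have h7 := hS.lo l (sE _ hl) (hQ (BR_mono (by omega) h5))
    rw [mem_BR] at h5 h6
    rw [mem_AL]
    exact ⟨⟨h5, by omega⟩, h6⟩
  obtain ⟨rg, hrg⟩ := Co.reg (Or.inr rfl) hgA hgg hgr
  have rg' := hrg g' hgg
  have hgt := hg.height hS
  have hgt' := hg'.height hS
  unfold Reg ht at rg rg'
  simp only [abs_le, le_abs] at rg rg'
  have ngU : Near (zU z u) (3 * u) g := by
    unfold Near
    rw [hU1, hU2, abs_le, abs_le]
    omega
  have ngL : Near (zL z u) (3 * u) g' := by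
    unfold Near
    rw [hL1, hL2, abs_le, abs_le]
    omega
  have fgU : Far (zU z u) (6 * u) g' := by
    unfold Far
    rw [hU1, hU2, le_abs, le_abs]
    omega
  have fgL : Far (zL z u) (6 * u) g := by
    unfold Far
    rw [hL1, hL2, le_abs, le_abs]
    omega
  have fvU : Far (zU z u) (6 * u) w := by
    unfold Far Near at *
    rw [hU1, hU2] at hv ⊢
    rw [abs_le, abs_le] at hv
    rw [le_abs, le_abs] at hw ⊢
    omega
  have fvL : Far (zL z u) (6 * u) w' := by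
    unfold Far Near at *
    rw [hL1, hL2] at hv' ⊢
    rw [abs_le, abs_le] at hv'
    rw [le_abs, le_abs] at hw' ⊢
    omega
  obtain ⟨a1, b1, c1⟩ := PLS hS hzU (ρ := 3 * u) (R := 6 * u) (by omega) hN (by omega) hQU
    (sE _) sPA hp hp' (by rw [hU1]; omega) (by rw [hU1]; omega) hpp
    (θ := ω ∩ E) inter_subset_right hvw hv fvU
  obtain ⟨a2, b2, c2⟩ := PLS hS hzU (ρ := 3 * u) (R := 6 * u) (by omega) hN (by omega) hQU
    (sE _) sPA hp hp' (by rw [hU1]; omega) (by rw [hU1]; omega) hpp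
    (θ := ω ∩ E ∩ Rg z (15 * u - 1) (17 * u)) (sE _) hgg ngU fgU
  obtain ⟨a3, b3, c3⟩ := PLS hS hzL (ρ := 3 * u) (R := 6 * u) (by omega) hN (by omega) hQL
    (sE _) sRA hr hr' (by rw [hL1]; omega) (by rw [hL1]; omega) hrr
    (θ := ω ∩ E ∩ Rg z (15 * u - 1) (17 * u)) (sE _) hgg.symm ngL fgL
  obtain ⟨a4, b4, c4⟩ := PLS hS hzL (ρ := 3 * u) (R := 6 * u) (by omega) hN (by omega) hQL
    (sE _) sRA hr hr' (by rw [hL1]; omega) (by rw [hL1]; omega) hrr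
    (θ := ω ∩ E) inter_subset_right hvw' hv' fvL
  have d1 := (c1.mono (sU _ (Subset.refl _))).trans (b1.mono sP).symm
  have d2 := (b2.mono sP).trans (c2.mono (sU _ inter_subset_left)).symm
  have d3 := hgg.mono sG
  have d4 := (c3.mono (sL _ inter_subset_left)).trans (b3.mono sR).symm
  have d5 := (b4.mono sR).trans (c4.mono (sL _ (Subset.refl _))).symm
  exact (((d1.trans d2).trans d3).trans d4).trans d5

/-- the probability of the event `FF` is bounded below -/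
theorem FF_prob : ∃ c : ℝ, 0 < c ∧ ∀ q : ℤ × ℤ → ℝ, Qh q → ∀ (k N : ℤ)
    (Q E : Finset (ℤ × ℤ)), Stair k N Q E → ∀ (z : ℤ × ℤ) (u : ℤ), z.1 + z.2 = k → 0 ≤ N →
    N ≤ u → 1 ≤ u → BR z (22 * u + 1) ⊆ Q → c ≤ PrP q E (FF Q E N z u) := by
  obtain ⟨c, hc, h⟩ := arc_prob 17
  refine ⟨c * c * c, by positivity, fun q hq k N Q E hS z u hz hN hNu hu hQ => ?_⟩
  have h1 := h q hq k N Q E hS z (15 * u) (17 * u) hz hN (by omega) (by omega)
    (by push_cast; omega) ((BR_mono (by omega)).trans hQ)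
  have h2 := h q hq k N Q E hS (zU z u) (5 * u) (6 * u) (by unfold zU; simp only; omega) hN
    (by omega) (by omega) (by push_cast; omega) (by
      refine subset_trans ?_ hQ
      intro l hl
      unfold zU at hl
      rw [mem_BR] at hl ⊢
      simp only at hl
      omega)
  have h3 := h q hq k N Q E hS (zL z u) (5 * u) (6 * u) (by unfold zL; simp only; omega) hN
    (by omega) (by omega) (by push_cast; omega) (by
      refine subset_trans ?_ hQ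
      intro l hl
      unfold zL at hl
      rw [mem_BR] at hl ⊢
      simp only at hl
      omega)
  have e1 := harris3P hq.pb E (Arc_inc (Q := Q) (E := E) (N := N) (z := z) (a := 15 * u)
    (b := 17 * u)) (Arc_inc (Q := Q) (E := E) (N := N) (z := zU z u) (a := 5 * u) (b := 6 * u))
    (Arc_inc (Q := Q) (E := E) (N := N) (z := zL z u) (a := 5 * u) (b := 6 * u))
  have e2 := mul_le_mul (mul_le_mul h1 h2 hc.le (hc.le.trans h1)) h3 hc.le
    (mul_nonneg (hc.le.trans h1) (hc.le.trans h2))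
  exact e2.trans e1

end Pool.Agent.H91.W
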