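import Mathlib
import Pool.Agent.H91.W.Bank

set_option autoImplicit false
open Finset

/-! # Route W, W-D, D4: explicit staircases

Tile `(i,j)` is the label `(i+j+1, i-j)`: row `j = (l.1 - l.2 - 1) / 2`, height `2 i + 1 = l.1 + l.2`.
`SB T Q` : the labels of `Q` with `T j ≤ i`. -/

namespace Pool.Agent.H91.W

open Pool.Agent.H75.Perc Pool.Agent.H75.TwoArm Pool.Agent.H75.Four Pool.Agent.H60.Q1
open Pool.Agent.H99.NC

/-- row of a label along the wall -/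
def rw' (l : ℤ × ℤ) : ℤ := (l.1 - l.2 - 1) / 2

/-- the label is above the profile `T` -/
def AbvT (T : ℤ → ℤ) (l : ℤ × ℤ) : Prop := 2 * T (rw' l) + 1 ≤ l.1 + l.2

/-- the labels of `Q` above the profile `T` -/
noncomputable def SB (T : ℤ → ℤ) (Q : Finset (ℤ × ℤ)) : Finset (ℤ × ℤ) :=
  open Classical in Q.filter (AbvT T)

lemma mem_SB {T : ℤ → ℤ} {Q : Finset (ℤ × ℤ)} {l : ℤ × ℤ} : l ∈ SB T Q ↔ l ∈ Q ∧ AbvT T l := by
  classical
  unfold SB
  rw [mem_filter]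

/-- a label set which is inside `Q` the part above a nonincreasing profile is a staircase -/
theorem stair_of {k N : ℤ} {Q E : Finset (ℤ × ℤ)} {T : ℤ → ℤ}
    (hmono : ∀ i j, i ≤ j → T j ≤ T i) (hlo : ∀ j, k ≤ T j) (hhi : ∀ j, T j ≤ k + N)
    (hE : ∀ l ∈ Q, l ∈ E ↔ AbvT T l) : Stair k N Q E where
  lo := by
    intro l hl hlQ
    have h1 := (hE l hlQ).1 hl
    have h2 := hlo (rw' l)
    unfold AbvT at h1
    omega
  up := by
    intro l hlQ hl
    rw [hE l hlQ]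
    have h2 := hhi (rw' l)
    unfold AbvT
    omega
  cl := by
    intro l hl hlQ l' hlQ' h
    rw [hE l hlQ] at hl
    rw [hE l' hlQ']
    rw [abs_le] at h
    have h3 : rw' l ≤ rw' l' := by unfold rw'; omega
    have h4 := hmono _ _ h3
    unfold AbvT at hl ⊢
    omega

theorem SB_stair {k N : ℤ} {Q : Finset (ℤ × ℤ)} {T : ℤ → ℤ}
    (hmono : ∀ i j, i ≤ j → T j ≤ T i) (hlo : ∀ j, k ≤ T j) (hhi : ∀ j, T j ≤ k + N) :
    Stair k N Q (SB T Q) :=
  stair_of hmono hlo hhi fun l hl => by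
    rw [mem_SB]
    exact ⟨fun h => h.2, fun h => ⟨hl, h⟩⟩

/-- the staircase property only depends on the labels in `Q` -/
lemma Stair.congr {k N : ℤ} {Q E E' : Finset (ℤ × ℤ)} (hS : Stair k N Q E)
    (h : ∀ l ∈ Q, l ∈ E' ↔ l ∈ E) : Stair k N Q E' where
  lo := fun l hl hlQ => hS.lo l ((h l hlQ).1 hl) hlQ
  up := fun l hlQ hl => (h l hlQ).2 (hS.up l hlQ hl)
  cl := fun l hl hlQ l' hlQ' h' => (h l' hlQ').2 (hS.cl l ((h l hlQ).1 hl) hlQ l' hlQ' h')

/-- smaller window -/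
lemma Stair.mono {k N : ℤ} {Q Q' E : Finset (ℤ × ℤ)} (hS : Stair k N Q E) (h : Q' ⊆ Q) :
    Stair k N Q' E where
  lo := fun l hl hlQ => hS.lo l hl (h hlQ)
  up := fun l hlQ hl => hS.up l (h hlQ) hl
  cl := fun l hl hlQ l' hlQ' h' => hS.cl l hl (h hlQ) l' (h hlQ') h'

/-- larger thickness, lower wall -/
lemma Stair.relax {k N k' N' : ℤ} {Q E : Finset (ℤ × ℤ)} (hS : Stair k N Q E) (h1 : k' ≤ k)
    (h2 : k + N ≤ k' + N') : Stair k' N' Q E where
  lo := fun l hl hlQ => by have := hS.lo l hl hlQ; omega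
  up := fun l hlQ hl => hS.up l hlQ (by omega)
  cl := hS.cl

end Pool.Agent.H91.W
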