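import Mathlib
import Pool.Agent.H91.W.Bank

set_option autoImplicit false
open Finset

/-! # Route W, W-E, E10: paths round the tip of a slit

Canonical frame of `Bank.lean`. The slit lies along the diagonal `{x + y = k}`, to the left of the tip
`z` (which is on the diagonal). `E1` : labels of the upper room (a `Stair`), `E2` : labels of the lower
room; its image under the reflection `syR k : (x, y) ↦ (k - y, k - x)` is a `Stair`. Everything to the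
right of the tip is natural (`hnat`).

* `half_u` : an arm near the window `zU` is connected to the far end of a path which starts at the bank.
* `Big` : a path from the upper bank round the tip to the lower bank. `FT` = `Big` and two half rings.
* `u_tip` : on `FT`, an upper and a lower arm of the window are connected round the tip.
* `FT_prob` : probability bounded below.
-/

namespace Pool.Agent.H91.W

open Pool.Agent.H75.Perc Pool.Agent.H75.TwoArm Pool.Agent.H75.Four Pool.Agent.H60.Q1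
open Pool.Agent.H99.NC

/-- reflection in the diagonal `{x + y = k}` -/
def syR (k : ℤ) : Sy where
  g u := (k - u.2, k - u.1)
  g' u := (k - u.2, k - u.1)
  G := ⟨fun e => (2 * k - e.2, 2 * k - e.1), by
    intro a b h
    have h1 := congrArg Prod.fst h
    have h2 := congrArg Prod.snd h
    simp only at h1 h2
    exact Prod.ext (by omega) (by omega)⟩
  G' e := (2 * k - e.2, 2 * k - e.1)
  gg' u := by simp
  g'g u := by simp
  GG' e := by simp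
  add u v := by
    refine Prod.ext ?_ ?_ <;>
    simp only [Function.Embedding.coeFn_mk, Prod.fst_add, Prod.snd_add] <;> ring
  unit u v := by
    constructor
    · intro h
      have h1 := unit_cases h
      unfold IsUnit4
      simp only [Prod.ext_iff, Prod.fst_sub, Prod.snd_sub]
      omega
    · intro h
      have h1 := unit_cases h
      simp only at h1
      unfold IsUnit4
      simp only [Prod.ext_iff, Prod.fst_sub, Prod.snd_sub]
      omega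

/-- mirror image of a set of labels -/
noncomputable def mir (k : ℤ) (ω : Finset (ℤ × ℤ)) : Finset (ℤ × ℤ) := ω.map (syR k).G

lemma mem_mir {k : ℤ} {ω : Finset (ℤ × ℤ)} {e : ℤ × ℤ} :
    e ∈ mir k ω ↔ ((2 * k - e.2, 2 * k - e.1) : ℤ × ℤ) ∈ ω := by
  unfold mir; rw [(syR k).mem_map]; rfl

lemma mir_mir (k : ℤ) (ω : Finset (ℤ × ℤ)) : mir k (mir k ω) = ω := by
  ext e
  rw [mem_mir, mem_mir]
  simp only [sub_sub_cancel]

lemma mir_inter (k : ℤ) (ω ω' : Finset (ℤ × ℤ)) : mir k (ω ∩ ω') = mir k ω ∩ mir k ω' := by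
  ext e
  simp only [mem_mir, mem_inter]

lemma mir_mono {k : ℤ} {ω ω' : Finset (ℤ × ℤ)} (h : ω ⊆ ω') : mir k ω ⊆ mir k ω' := by
  intro e he
  rw [mem_mir] at he ⊢
  exact h he

lemma mir_BR {k : ℤ} {z : ℤ × ℤ} (hz : z.1 + z.2 = k) (r : ℤ) : mir k (BR z r) = BR z r := by
  ext e
  rw [mem_mir, mem_BR, mem_BR]
  simp only
  omega

lemma mir_Rg {k : ℤ} {z : ℤ × ℤ} (hz : z.1 + z.2 = k) (a b : ℤ) :
    mir k (Rg z a b) = Rg z a b := by
  ext e
  rw [mem_mir, mem_Rg, mem_Rg, ← mem_mir, ← mem_mir, mir_BR hz, mir_BR hz]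

/-- mirror image of a vertex -/
def mv (k : ℤ) (v : ℤ × ℤ) : ℤ × ℤ := (k - v.2, k - v.1)

lemma mv_mv (k : ℤ) (v : ℤ × ℤ) : mv k (mv k v) = v := by
  unfold mv; simp

lemma co_mir {k : ℤ} {ω : Finset (ℤ × ℤ)} {u v : ℤ × ℤ} :
    Co (mir k ω) (mv k u) (mv k v) ↔ Co ω u v := (syR k).co_iff ω u v

lemma co_mir' {k : ℤ} {ω : Finset (ℤ × ℤ)} {u v : ℤ × ℤ} (h : Co (mir k ω) u v) :
    Co ω (mv k u) (mv k v) := by
  rw [← co_mir (k := k), mv_mv, mv_mv]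
  exact h

lemma mir_inc {k : ℤ} {A : Finset (ℤ × ℤ) → Prop} (hA : Inc A) :
    Inc (fun ω => A (mir k ω)) := fun _ _ h h' => hA _ _ (mir_mono h) h'

/-- **half of a U-path** -/
theorem half_u {k N : ℤ} {Q E : Finset (ℤ × ℤ)} (hS : Stair k N Q E) {z : ℤ × ℤ} {u : ℤ}
    (hz : z.1 + z.2 = k) (hN : 0 ≤ N) (hNu : N ≤ u) (hu : 1 ≤ u) (hQ : BR z (22 * u + 1) ⊆ Q)
    {ω : Finset (ℤ × ℤ)} (hA : Arc Q E N (zU z u) (5 * u) (6 * u) ω) {g g' : ℤ × ℤ}
    (hg : Bk Q E g) (hg1 : g.1 ≤ z.1 - 15 * u + N) (hg2 : z.1 + 15 * u ≤ g'.1)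
    (hgg : Co (ω ∩ E ∩ Rg z (15 * u - 1) (17 * u)) g g') {v : ℤ × ℤ}
    (hv : Near (zU z u) (3 * u) v) (ha : ArmE E u v ω) :
    Co (ω ∩ E ∩ Rg z (10 * u - 1) (22 * u)) v g' := by
  obtain ⟨p, p', hp, hp', hp1, hp2, hpp⟩ := hA
  obtain ⟨w, hw, hvw⟩ := ha
  have hU1 : (zU z u).1 = z.1 - 16 * u := rfl
  have hU2 : (zU z u).2 = z.2 + 16 * u := rfl
  have hzU : (zU z u).1 + (zU z u).2 = k := by rw [hU1, hU2]; omega
  have hQU : BR (zU z u) (6 * u) ⊆ Q := by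
    refine subset_trans ?_ hQ
    intro l hl
    rw [mem_BR] at hl ⊢
    rw [hU1, hU2] at hl
    omega
  have sU : ∀ θ : Finset (ℤ × ℤ), θ ⊆ ω ∩ E → θ ∩ BR (zU z u) (6 * u) ⊆
      ω ∩ E ∩ Rg z (10 * u - 1) (22 * u) := by
    intro θ hθ l hl
    obtain ⟨h1, h2⟩ := mem_inter.1 hl
    refine mem_inter.2 ⟨hθ h1, mem_Rg.2 ?_⟩
    rw [mem_BR] at h2 ⊢
    rw [mem_BR]
    rw [hU1, hU2] at h2
    omega
  have sG : ω ∩ E ∩ Rg z (15 * u - 1) (17 * u) ⊆ ω ∩ E ∩ Rg z (10 * u - 1) (22 * u) := by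
    refine inter_subset_inter_left ?_
    intro l hl
    obtain ⟨h1, h2⟩ := mem_Rg.1 hl
    exact mem_Rg.2 ⟨BR_mono (by omega) h1, fun h3 => h2 (BR_mono (by omega) h3)⟩
  have sP : ω ∩ E ∩ Rg (zU z u) (5 * u - 1) (6 * u) ⊆ ω ∩ E ∩ Rg z (10 * u - 1) (22 * u) := by
    intro l hl
    obtain ⟨h1, h2⟩ := mem_inter.1 hl
    exact sU (ω ∩ E) (Subset.refl _) (mem_inter.2 ⟨h1, (mem_Rg.1 h2).1⟩)
  have sPA : ω ∩ E ∩ Rg (zU z u) (5 * u - 1) (6 * u) ⊆ Rg (zU z u) (3 * u + N) (6 * u) := by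
    intro l hl
    obtain ⟨h1, h2⟩ := mem_Rg.1 (mem_inter.1 hl).2
    exact mem_Rg.2 ⟨h1, fun h3 => h2 (BR_mono (by omega) h3)⟩
  have sE : ∀ s : Finset (ℤ × ℤ), ω ∩ E ∩ s ⊆ E := fun s =>
    inter_subset_left.trans inter_subset_right
  rw [hU1] at hp1 hp2
  have hgr : g ≠ g' := by rintro rfl; omega
  have hgA : ω ∩ E ∩ Rg z (15 * u - 1) (17 * u) ⊆ AL 1 z (15 * u - 1) (17 * u) := by
    intro l hl
    obtain ⟨h5, h6⟩ := mem_Rg.1 (mem_inter.1 hl).2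
    have h7 := hS.lo l (sE _ hl) (hQ (BR_mono (by omega) h5))
    rw [mem_BR] at h5 h6
    rw [mem_AL]
    exact ⟨⟨h5, by omega⟩, h6⟩
  obtain ⟨rg, hrg⟩ := Co.reg (Or.inr rfl) hgA hgg hgr
  have hgt := hg.height hS
  unfold Reg ht at rg
  simp only [abs_le, le_abs] at rg
  have ngU : Near (zU z u) (3 * u) g := by
    unfold Near
    rw [hU1, hU2, abs_le, abs_le]
    omega
  have fgU : Far (zU z u) (6 * u) g' := by
    unfold Far
    rw [hU1, hU2, le_abs, le_abs]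
    omega
  have fvU : Far (zU z u) (6 * u) w := by
    unfold Far Near at *
    rw [hU1, hU2] at hv ⊢
    rw [abs_le, abs_le] at hv
    rw [le_abs, le_abs] at hw ⊢
    omega
  obtain ⟨a1, b1, c1⟩ := PLS hS hzU (ρ := 3 * u) (R := 6 * u) (by omega) hN (by omega) hQU
    (sE _) sPA hp hp' (by rw [hU1]; omega) (by rw [hU1]; omega) hpp
    (θ := ω ∩ E) inter_subset_right hvw hv fvU
  obtain ⟨a2, b2, c2⟩ := PLS hS hzU (ρ := 3 * u) (R := 6 * u) (by omega) hN (by omega) hQU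
    (sE _) sPA hp hp' (by rw [hU1]; omega) (by rw [hU1]; omega) hpp
    (θ := ω ∩ E ∩ Rg z (15 * u - 1) (17 * u)) (sE _) hgg ngU fgU
  have d1 := (c1.mono (sU _ (Subset.refl _))).trans (b1.mono sP).symm
  have d2 := (b2.mono sP).trans (c2.mono (sU _ inter_subset_left)).symm
  exact (d1.trans d2).trans (hgg.mono sG)

/-- the radial path of the bank, from the crossing of the top rectangle -/
lemma top_stop {k N : ℤ} {Q E : Finset (ℤ × ℤ)} (hS : Stair k N Q E) {z : ℤ × ℤ} {a b : ℤ}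
    (hz : z.1 + z.2 = k) (hN : 0 ≤ N) (ha : N < a) (hQ : BR z (b + 1) ⊆ Q)
    {ω : Finset (ℤ × ℤ)} {t y : ℤ × ℤ}
    (hty : Co (ω ∩ Bx (z.1 - b) (z.1 + b) (z.2 + a) (z.2 + b)) t y)
    (t1 : inB (z.1 - b) (z.1 + b) (z.2 + a) (z.2 + b) t) (t2 : t.1 = z.1 - b)
    (hy : z.1 + a ≤ y.1) :
    ∃ p, Bk Q E p ∧ p.1 ≤ z.1 - a + N ∧ Co (ω ∩ E ∩ Rg z (a - 1) b) p y := by
  set BT := Bx (z.1 - b) (z.1 + b) (z.2 + a) (z.2 + b) with hBT
  have hyT : inB (z.1 - b) (z.1 + b) (z.2 + a) (z.2 + b) y := hty.inB inter_subset_right t1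
  have hyB : ¬ Bk Q E y := by
    intro h
    have := h.height hS
    unfold inB at hyT
    omega
  have hBk : Bk Q E t := by
    unfold inB at t1
    refine ⟨(2 * t.1 - 1, 2 * t.2), hQ ?_, ?_, ?_⟩
    · rw [mem_BR]
      simp only
      omega
    · intro h
      have := hS.lo _ h (hQ (by
        rw [mem_BR]
        simp only
        omega))
      simp only at this
      omega
    · exact Or.inl ⟨rfl, Or.inr rfl⟩
  have hTQ : ω ∩ BT ⊆ Q := by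
    intro l hl
    have h1 := (mem_inter.1 hl).2
    rw [hBT, mem_Bx] at h1
    refine hQ ?_
    rw [mem_BR]
    omega
  obtain ⟨p, hp, hyp⟩ := stop hTQ hty.symm hyB hBk
  have ip : inB (z.1 - b) (z.1 + b) (z.2 + a) (z.2 + b) p :=
    hyp.inB (inter_subset_left.trans inter_subset_right) hyT
  have hgt := hp.height hS
  unfold inB at ip
  refine ⟨p, hp, by omega, hyp.symm.mono ?_⟩
  intro l hl
  simp only [mem_inter] at hl ⊢
  refine ⟨⟨hl.1.1, hl.2⟩, mem_Rg.2 ?_⟩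
  have h1 := hl.1.2
  rw [hBT, mem_Bx] at h1
  rw [mem_BR, mem_BR]
  omega

/-- a path from the upper bank round the tip to the lower bank -/
def Big (k : ℤ) (Q E1 E2 : Finset (ℤ × ℤ)) (N : ℤ) (z : ℤ × ℤ) (a b : ℤ) (ω : Finset (ℤ × ℤ)) :
    Prop :=
  ∃ p y p' y', (Bk Q E1 p ∧ p.1 ≤ z.1 - a + N ∧ z.1 + a ≤ y.1 ∧
      Co (ω ∩ E1 ∩ Rg z (a - 1) b) p y) ∧
    (Bk Q (mir k E2) p' ∧ p'.1 ≤ z.1 - a + N ∧ z.1 + a ≤ y'.1 ∧
      Co (mir k ω ∩ mir k E2 ∩ Rg z (a - 1) b) p' y') ∧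
    Co (ω ∩ (E1 ∪ E2) ∩ Rg z (a - 1) b) y (mv k y')

lemma Big_inc {k : ℤ} {Q E1 E2 : Finset (ℤ × ℤ)} {N : ℤ} {z : ℤ × ℤ} {a b : ℤ} :
    Inc (Big k Q E1 E2 N z a b) := by
  rintro ω ω' h ⟨p, y, p', y', ⟨h1, h2, h3, h4⟩, ⟨h5, h6, h7, h8⟩, h9⟩
  exact ⟨p, y, p', y', ⟨h1, h2, h3, h4.mono (inter_subset_inter_right (inter_subset_inter_right h))⟩,
    ⟨h5, h6, h7, h8.mono (inter_subset_inter_right (inter_subset_inter_right (mir_mono h)))⟩,
    h9.mono (inter_subset_inter_right (inter_subset_inter_right h))⟩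

lemma Big_local {k : ℤ} {Q E1 E2 : Finset (ℤ × ℤ)} {N : ℤ} {z : ℤ × ℤ} {a b : ℤ}
    {ω : Finset (ℤ × ℤ)} :
    Big k Q E1 E2 N z a b ω ↔ Big k Q E1 E2 N z a b (ω ∩ (E1 ∪ E2)) := by
  have e1 : ω ∩ (E1 ∪ E2) ∩ E1 = ω ∩ E1 := by
    rw [inter_assoc, inter_eq_right.2 subset_union_left]
  have e2 : mir k (ω ∩ (E1 ∪ E2)) ∩ mir k E2 = mir k ω ∩ mir k E2 := by
    rw [← mir_inter, ← mir_inter, inter_assoc, inter_eq_right.2 subset_union_right]
  unfold Big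
  rw [e1, e2, inter_assoc ω (E1 ∪ E2) (E1 ∪ E2), inter_self]

/-- everything to the right of the tip is natural -/
def Nat' (N : ℤ) (Q E1 E2 : Finset (ℤ × ℤ)) (z : ℤ × ℤ) : Prop :=
  ∀ l ∈ Q, 2 * (z.1 + N) ≤ l.1 → l ∈ E1 ∪ E2

/-- `Big` from crossings of four rectangles -/
lemma big_of {k N : ℤ} {Q E1 E2 : Finset (ℤ × ℤ)} (hS1 : Stair k N Q E1)
    (hS2 : Stair k N (mir k Q) (mir k E2)) {z : ℤ × ℤ} (hnat : Nat' N Q E1 E2 z) {a b : ℤ}
    (hz : z.1 + z.2 = k) (hN : 0 ≤ N) (ha : N < a) (hab : a < b) (hba : b + 2 * N < 2 * a)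
    (hQ : BR z (b + 1) ⊆ Q) (hQm : mir k Q = Q) {ω : Finset (ℤ × ℤ)}
    (hT : HC (z.1 - b) (z.1 + b) (z.2 + a) (z.2 + b) ω)
    (hR : VC (z.1 + a) (z.1 + b) (z.2 - b) (z.2 + b) ω)
    (hB : HC (z.1 - b) (z.1 + b) (z.2 - b) (z.2 - a) ω)
    (hL : VC (z.1 - b) (z.1 - a) (z.2 - b) (z.2 + b) ω) : Big k Q E1 E2 N z a b ω := by
  rw [hQm] at hS2
  obtain ⟨t, t', t1, t2, t3, t4⟩ := hT
  obtain ⟨r, r', r1, r2, r3, r4⟩ := hR
  obtain ⟨s, s', s1, s2, s3, s4⟩ := hB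
  obtain ⟨l, l', l1, l2, l3, l4⟩ := hL
  set BT := Bx (z.1 - b) (z.1 + b) (z.2 + a) (z.2 + b) with hBT
  set BV := Bx (z.1 + a) (z.1 + b) (z.2 - b) (z.2 + b) with hBV
  set BB := Bx (z.1 - b) (z.1 + b) (z.2 - b) (z.2 - a) with hBB
  set BL := Bx (z.1 - b) (z.1 - a) (z.2 - b) (z.2 + b) with hBL
  obtain ⟨y, y1, y2⟩ := cross_co (a := z.1 - b) (b := z.1 + b) (c := z.2 - b)
    (d := z.2 + b) (ω1 := ω ∩ BT) (ω2 := ω ∩ BV)
    (inter_subset_right.trans (Bx_sub le_rfl le_rfl (by omega) le_rfl))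
    (inter_subset_right.trans (Bx_sub (by omega) le_rfl le_rfl le_rfl))
    (by unfold inB at t1 ⊢; omega) (by unfold inB at r1 ⊢; omega)
    t4 r4 t2 t3 r2 r3
  obtain ⟨x, x1, x2⟩ := cross_co (a := z.1 - b) (b := z.1 + b) (c := z.2 - b)
    (d := z.2 + b) (ω1 := ω ∩ BB) (ω2 := ω ∩ BV)
    (inter_subset_right.trans (Bx_sub le_rfl le_rfl le_rfl (by omega)))
    (inter_subset_right.trans (Bx_sub (by omega) le_rfl le_rfl le_rfl))
    (by unfold inB at s1 ⊢; omega) (by unfold inB at r1 ⊢; omega)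
    s4 r4 s2 s3 r2 r3
  obtain ⟨w, w1, w2⟩ := cross_co (a := z.1 - b) (b := z.1 + b) (c := z.2 - b)
    (d := z.2 + b) (ω1 := ω ∩ BB) (ω2 := ω ∩ BL)
    (inter_subset_right.trans (Bx_sub le_rfl le_rfl le_rfl (by omega)))
    (inter_subset_right.trans (Bx_sub le_rfl (by omega) le_rfl le_rfl))
    (by unfold inB at s1 ⊢; omega) (by unfold inB at l1 ⊢; omega)
    s4 l4 s2 s3 l2 l3
  have hyR : inB (z.1 + a) (z.1 + b) (z.2 - b) (z.2 + b) y := y2.inB inter_subset_right r1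
  have hwB : inB (z.1 - b) (z.1 + b) (z.2 - b) (z.2 - a) w := w1.inB inter_subset_right s1
  have hlB : inB (z.1 - b) (z.1 - a) (z.2 - b) (z.2 + b) l' := l4.inB inter_subset_right l1
  obtain ⟨p, hp, hp1, hpy⟩ := top_stop hS1 hz hN ha hQ y1 t1 t2
    (by unfold inB at hyR; omega)
  -- the mirror image
  have hm : mir k ω ∩ BT = mir k (ω ∩ BL) := by
    ext e
    rw [mem_mir, mem_inter, mem_inter, mem_mir, hBT, hBL, mem_Bx, mem_Bx]
    simp only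
    constructor
    · rintro ⟨h1, h2⟩
      exact ⟨h1, by omega⟩
    · rintro ⟨h1, h2⟩
      exact ⟨h1, by omega⟩
  have hlw : Co (mir k ω ∩ BT) (mv k l') (mv k w) := by
    rw [hm, co_mir]
    exact l4.symm.trans w2
  obtain ⟨p', hp', hp1', hpy'⟩ := top_stop hS2 hz hN ha hQ hlw
    (by unfold inB at hlB ⊢; unfold mv; simp only; omega)
    (by unfold mv; simp only; omega) (by unfold inB at hwB; unfold mv; simp only; omega)
  refine ⟨p, y, p', mv k w, ⟨hp, hp1, by unfold inB at hyR; omega, hpy⟩,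
    ⟨hp', hp1', by unfold inB at hwB; unfold mv; simp only; omega, hpy'⟩, ?_⟩
  rw [mv_mv]
  have hV : ω ∩ BV ⊆ ω ∩ (E1 ∪ E2) ∩ Rg z (a - 1) b := by
    intro e he
    obtain ⟨h1, h2⟩ := mem_inter.1 he
    have h3 : e ∈ BR z b := by
      rw [hBV, mem_Bx] at h2
      rw [mem_BR]
      omega
    refine mem_inter.2 ⟨mem_inter.2 ⟨h1, hnat e (hQ (BR_mono (by omega) h3)) ?_⟩,
      mem_Rg.2 ⟨h3, ?_⟩⟩
    · rw [hBV, mem_Bx] at h2
      omega
    · rw [hBV, mem_Bx] at h2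
      rw [mem_BR]
      omega
  have hBo : ω ∩ BB ⊆ ω ∩ (E1 ∪ E2) ∩ Rg z (a - 1) b := by
    intro e he
    obtain ⟨h1, h2⟩ := mem_inter.1 he
    have h3 : e ∈ BR z b := by
      rw [hBB, mem_Bx] at h2
      rw [mem_BR]
      omega
    have h4 : e ∈ Q := hQ (BR_mono (by omega) h3)
    refine mem_inter.2 ⟨mem_inter.2 ⟨h1, ?_⟩, mem_Rg.2 ⟨h3, ?_⟩⟩
    · rw [hBB, mem_Bx] at h2
      rcases le_or_gt (2 * (k - N)) (e.1 + e.2) with h5 | h5
      · exact hnat e h4 (by omega)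
      · refine mem_union_right _ ?_
        have h6 := hS2.up (2 * k - e.2, 2 * k - e.1)
          (by rw [← hQm, mem_mir]; simpa using h4) (by simp only; omega)
        rw [mem_mir] at h6
        simpa using h6
    · rw [hBB, mem_Bx] at h2
      rw [mem_BR]
      omega
  exact ((y2.symm.trans x2).mono hV).trans ((x1.symm.trans w1).mono hBo)

/-- the event for the tip -/
def FT (k : ℤ) (Q E1 E2 : Finset (ℤ × ℤ)) (N : ℤ) (z : ℤ × ℤ) (u : ℤ) (ω : Finset (ℤ × ℤ)) :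
    Prop :=
  Big k Q E1 E2 N z (15 * u) (17 * u) ω ∧ Arc Q E1 N (zU z u) (5 * u) (6 * u) ω ∧
    Arc Q (mir k E2) N (zU z u) (5 * u) (6 * u) (mir k ω)

lemma FT_inc {k : ℤ} {Q E1 E2 : Finset (ℤ × ℤ)} {N : ℤ} {z : ℤ × ℤ} {u : ℤ} :
    Inc (FT k Q E1 E2 N z u) :=
  fun _ _ h h' => ⟨Big_inc _ _ h h'.1, Arc_inc _ _ h h'.2.1, Arc_inc _ _ (mir_mono h) h'.2.2⟩

/-- **round the tip** -/
theorem u_tip {k N : ℤ} {Q E1 E2 : Finset (ℤ × ℤ)} (hS1 : Stair k N Q E1)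
    (hS2 : Stair k N Q (mir k E2)) {z : ℤ × ℤ} {u : ℤ}
    (hz : z.1 + z.2 = k) (hN : 0 ≤ N) (hNu : N ≤ u) (hu : 1 ≤ u) (hQ : BR z (22 * u + 1) ⊆ Q)
    {ω : Finset (ℤ × ℤ)} (hF : FT k Q E1 E2 N z u ω) {v v' : ℤ × ℤ}
    (hv : Near (zU z u) (3 * u) v) (hv' : Near (zU z u) (3 * u) (mv k v'))
    (ha : ArmE E1 u v ω) (ha' : ArmE (mir k E2) u (mv k v') (mir k ω)) :
    Co (ω ∩ (E1 ∪ E2) ∩ Rg z (10 * u - 1) (22 * u)) v v' := by
  obtain ⟨⟨p, y, p', y', ⟨h1, h2, h3, h4⟩, ⟨h5, h6, h7, h8⟩, h9⟩, hA, hA'⟩ := hF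
  have c1 := half_u hS1 hz hN hNu hu hQ hA h1 h2 h3 h4 hv ha
  have c2 := half_u hS2 hz hN hNu hu hQ hA' h5 h6 h7 h8 hv' ha'
  rw [← mir_inter, ← mir_Rg hz (10 * u - 1) (22 * u), ← mir_inter] at c2
  have c3 := co_mir' c2
  rw [mv_mv] at c3
  have s1 : ω ∩ E1 ∩ Rg z (10 * u - 1) (22 * u) ⊆ ω ∩ (E1 ∪ E2) ∩ Rg z (10 * u - 1) (22 * u) :=
    inter_subset_inter_right (inter_subset_inter_left subset_union_left)
  have s2 : ω ∩ E2 ∩ Rg z (10 * u - 1) (22 * u) ⊆ ω ∩ (E1 ∪ E2) ∩ Rg z (10 * u - 1) (22 * u) :=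
    inter_subset_inter_right (inter_subset_inter_left subset_union_right)
  have s3 : ω ∩ (E1 ∪ E2) ∩ Rg z (15 * u - 1) (17 * u) ⊆
      ω ∩ (E1 ∪ E2) ∩ Rg z (10 * u - 1) (22 * u) := by
    refine inter_subset_inter_left ?_
    intro l hl
    obtain ⟨g1, g2⟩ := mem_Rg.1 hl
    exact mem_Rg.2 ⟨BR_mono (by omega) g1, fun g3 => g2 (BR_mono (by omega) g3)⟩
  exact ((c1.mono s1).trans (h9.mono s3)).trans (c3.mono s2).symm

lemma PrP_mir {k : ℤ} (q : ℤ × ℤ → ℝ) (E : Finset (ℤ × ℤ)) (A : Finset (ℤ × ℤ) → Prop) :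
    PrP q E (fun ω => A (mir k ω)) =
      PrP (fun e => q (2 * k - e.2, 2 * k - e.1)) (mir k E) A := by
  unfold mir
  rw [PrP_map]
  congr 1
  funext e
  show q e = q (2 * k - (2 * k - e.1), 2 * k - (2 * k - e.2))
  simp

/-- the probability of the event `FT` is bounded below -/
theorem FT_prob : ∃ c : ℝ, 0 < c ∧ ∀ q : ℤ × ℤ → ℝ, Qh q → ∀ (k N : ℤ)
    (Q E1 E2 : Finset (ℤ × ℤ)), Stair k N Q E1 → Stair k N Q (mir k E2) → mir k Q = Q →
    ∀ (z : ℤ × ℤ) (u : ℤ), Nat' N Q E1 E2 z → z.1 + z.2 = k → 0 ≤ N →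
    N ≤ u → 1 ≤ u → BR z (22 * u + 1) ⊆ Q → c ≤ PrP q (E1 ∪ E2) (FT k Q E1 E2 N z u) := by
  obtain ⟨c, hc, h⟩ := arc_prob 17
  obtain ⟨c', hc', h'⟩ := rsw_q 17
  refine ⟨(c' * c' * (c' * c')) * c * c, by positivity,
    fun q hq k N Q E1 E2 hS1 hS2 hQm z u hnat hz hN hNu hu hQ => ?_⟩
  have hQU : BR (zU z u) (6 * u + 1) ⊆ Q := by
    refine subset_trans ?_ hQ
    intro l hl
    unfold zU at hl
    rw [mem_BR] at hl ⊢
    simp only at hl
    omega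
  have hzU : (zU z u).1 + (zU z u).2 = k := by unfold zU; simp only; omega
  have h2 : c ≤ PrP q (E1 ∪ E2) (Arc Q E1 N (zU z u) (5 * u) (6 * u)) := by
    rw [PrP_local (F := E1) subset_union_left fun ω _ => Arc_local]
    exact h q hq k N Q E1 hS1 (zU z u) (5 * u) (6 * u) hzU hN
      (by omega) (by omega) (by push_cast; omega) hQU
  have h3 : c ≤ PrP q (E1 ∪ E2) (fun ω => Arc Q (mir k E2) N (zU z u) (5 * u) (6 * u)
      (mir k ω)) := by
    rw [PrP_mir, PrP_local (F := mir k E2) (mir_mono subset_union_right) fun ω _ => Arc_local]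
    exact h _ (fun e => hq _) k N Q (mir k E2) hS2 (zU z u) (5 * u) (6 * u) hzU hN
      (by omega) (by omega) (by push_cast; omega) hQU
  have h1 : c' * c' * (c' * c') ≤ PrP q (E1 ∪ E2) (Big k Q E1 E2 N z (15 * u) (17 * u)) := by
    rw [← PrP_local (E := E1 ∪ E2 ∪ BR z (17 * u)) subset_union_left fun ω _ => Big_local]
    have g1 := (h' q hq (E1 ∪ E2 ∪ BR z (17 * u)) (z.1 - 17 * u) (z.1 + 17 * u) (z.2 + 15 * u)
      (z.2 + 17 * u) (by omega) (by omega) ((Bx_sub (by omega) le_rfl (by omega) le_rfl).trans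
        subset_union_right)).1 (by push_cast; omega)
    have g2 := (h' q hq (E1 ∪ E2 ∪ BR z (17 * u)) (z.1 + 15 * u) (z.1 + 17 * u) (z.2 - 17 * u)
      (z.2 + 17 * u) (by omega) (by omega) ((Bx_sub (by omega) le_rfl (by omega) le_rfl).trans
        subset_union_right)).2 (by push_cast; omega)
    have g3 := (h' q hq (E1 ∪ E2 ∪ BR z (17 * u)) (z.1 - 17 * u) (z.1 + 17 * u) (z.2 - 17 * u)
      (z.2 - 15 * u) (by omega) (by omega) ((Bx_sub le_rfl (by omega) le_rfl (by omega)).trans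
        subset_union_right)).1 (by push_cast; omega)
    have g4 := (h' q hq (E1 ∪ E2 ∪ BR z (17 * u)) (z.1 - 17 * u) (z.1 - 15 * u) (z.2 - 17 * u)
      (z.2 + 17 * u) (by omega) (by omega) ((Bx_sub le_rfl (by omega) le_rfl (by omega)).trans
        subset_union_right)).2 (by push_cast; omega)
    have i1 := HC_inc (z.1 - 17 * u) (z.1 + 17 * u) (z.2 + 15 * u) (z.2 + 17 * u)
    have i2 := VC_inc (z.1 + 15 * u) (z.1 + 17 * u) (z.2 - 17 * u) (z.2 + 17 * u)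
    have i3 := HC_inc (z.1 - 17 * u) (z.1 + 17 * u) (z.2 - 17 * u) (z.2 - 15 * u)
    have i4 := VC_inc (z.1 - 17 * u) (z.1 - 15 * u) (z.2 - 17 * u) (z.2 + 17 * u)
    have e1 := PrP_harris hq.pb (E1 ∪ E2 ∪ BR z (17 * u)) i1 i2
    have e2 := PrP_harris hq.pb (E1 ∪ E2 ∪ BR z (17 * u)) i3 i4
    have e3 := PrP_harris hq.pb (E1 ∪ E2 ∪ BR z (17 * u)) (Inc.and i1 i2) (Inc.and i3 i4)
    have f1 := (mul_le_mul g1 g2 hc'.le (hc'.le.trans g1)).trans e1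
    have f2 := (mul_le_mul g3 g4 hc'.le (hc'.le.trans g3)).trans e2
    have f3 := (mul_le_mul f1 f2 (by positivity) ((by positivity : (0:ℝ) ≤ c' * c').trans f1)).trans e3
    exact f3.trans (PrP_mono hq.pb fun ω _ hh => big_of hS1 (by rw [hQm]; exact hS2) hnat hz hN
      (by omega) (by omega) (by omega) ((BR_mono (by omega)).trans hQ) hQm hh.1.1 hh.1.2 hh.2.1
      hh.2.2)
  have e1 := harris3P hq.pb (E1 ∪ E2) (Big_inc (k := k) (Q := Q) (E1 := E1) (E2 := E2) (N := N)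
    (z := z) (a := 15 * u) (b := 17 * u))
    (Arc_inc (Q := Q) (E := E1) (N := N) (z := zU z u) (a := 5 * u) (b := 6 * u))
    (mir_inc (k := k) (Arc_inc (Q := Q) (E := mir k E2) (N := N) (z := zU z u) (a := 5 * u)
      (b := 6 * u)))
  have e2 := mul_le_mul (mul_le_mul h1 h2 hc.le ((by positivity : (0:ℝ) ≤ c' * c' * (c' * c')).trans h1))
    h3 hc.le (mul_nonneg ((by positivity : (0:ℝ) ≤ c' * c' * (c' * c')).trans h1) (hc.le.trans h2))
  exact e2.trans e1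

end Pool.Agent.H91.W
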