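import Mathlib
import Pool.Agent.H91.W.Profile
import Pool.Agent.H91.W.Tip

set_option autoImplicit false
open Finset

/-! # Route W: the two rooms of a horizontal chord at tile level, as staircases

Tile frame: column `tX e = (e.1 + e.2 - 1) / 2`, row `tY e = (e.2 - e.1 - 1) / 2` of a label (`= tt e` of
`H33/Q1/Tile`). Upper room `RU T B` : labels of `B` with `T (tX e) ≤ tY e`, lower room `RL T B` : labels
with `tY e ≤ -1 - T (tX e)`, `T` any profile.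

Canonical maps: `syU` (labels `e ↦ (e.2, -e.1)`), `syY 0` (labels `e ↦ (e.1, -e.2)`); `mir 0` exchanges
them. `uI`, `lI` : images. In canonical coordinates the room is a `Stair`, row `rw' l` = column of the tile.

* `stairU`, `stairL`.
* `chT Xo W t0 s` : the wedge chain, plate `i` has the columns `Xo - (i+1) W ≤ x < Xo - i W` and the half
  thickness `t0 + s i`.
* `bc T b` : bank centre, `HL_sub` : the half box above the bank of a plate is in the room.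
-/

namespace Pool.Agent.H91.W

open Pool.Agent.H75.Perc Pool.Agent.H75.TwoArm Pool.Agent.H75.Four Pool.Agent.H60.Q1
open Pool.Agent.H99.NC

/-- column of the tile of a label -/
def tX (e : ℤ × ℤ) : ℤ := (e.1 + e.2 - 1) / 2

/-- row of the tile of a label -/
def tY (e : ℤ × ℤ) : ℤ := (e.2 - e.1 - 1) / 2

/-- rotation `(x, y) ↦ (y, -x)`: canonical map of the upper room -/
def syU : Sy where
  g u := (u.2, -u.1)
  g' u := (-u.2, u.1)
  G := ⟨fun e => (e.2, -e.1), by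
    intro a b h
    have h1 := congrArg Prod.fst h
    have h2 := congrArg Prod.snd h
    simp only at h1 h2
    exact Prod.ext (by omega) (by omega)⟩
  G' e := (-e.2, e.1)
  gg' u := by simp
  g'g u := by simp
  GG' e := by simp
  add u v := by
    refine Prod.ext ?_ ?_ <;>
    simp only [Function.Embedding.coeFn_mk, Prod.fst_add, Prod.snd_add]; ring
  unit u v := by
    constructor
    · intro h
      have h1 := unit_cases h
      unfold IsUnit4
      simp only [Prod.ext_iff, Prod.fst_sub, Prod.snd_sub]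
      omega
    · intro h
      have h1 := unit_cases h
      simp only at h1
      unfold IsUnit4
      simp only [Prod.ext_iff, Prod.fst_sub, Prod.snd_sub]
      omega

/-- canonical image of the upper side -/
noncomputable def uI (E : Finset (ℤ × ℤ)) : Finset (ℤ × ℤ) := E.map syU.G

/-- canonical image of the lower side -/
noncomputable def lI (E : Finset (ℤ × ℤ)) : Finset (ℤ × ℤ) := E.map (syY 0).G

lemma mem_uI {E : Finset (ℤ × ℤ)} {l : ℤ × ℤ} : l ∈ uI E ↔ ((-l.2, l.1) : ℤ × ℤ) ∈ E := by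
  unfold uI; rw [syU.mem_map]; rfl

lemma mem_lI {E : Finset (ℤ × ℤ)} {l : ℤ × ℤ} : l ∈ lI E ↔ ((l.1, -l.2) : ℤ × ℤ) ∈ E := by
  unfold lI; rw [(syY 0).mem_map]
  show (l.1, 2 * 0 - l.2) ∈ E ↔ _
  rw [mul_zero, zero_sub]

lemma lI_eq_mir (E : Finset (ℤ × ℤ)) : lI E = mir 0 (uI E) := by
  ext l
  rw [mem_lI, mem_mir, mem_uI]
  simp

lemma co_uI {ω : Finset (ℤ × ℤ)} {u v : ℤ × ℤ} :
    Co (uI ω) (u.2, -u.1) (v.2, -v.1) ↔ Co ω u v := syU.co_iff ω u v

lemma co_lI {ω : Finset (ℤ × ℤ)} {u v : ℤ × ℤ} :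
    Co (lI ω) (u.1, -u.2) (v.1, -v.2) ↔ Co ω u v := by
  have := (syY 0).co_iff ω u v
  have e1 : ∀ w : ℤ × ℤ, (syY 0).g w = (w.1, -w.2) := by
    intro w
    show (w.1, 0 - w.2) = _
    rw [zero_sub]
  rw [e1, e1] at this
  exact this

lemma uI_inter (A B : Finset (ℤ × ℤ)) : uI (A ∩ B) = uI A ∩ uI B := by
  ext l; simp only [mem_uI, mem_inter]

lemma lI_inter (A B : Finset (ℤ × ℤ)) : lI (A ∩ B) = lI A ∩ lI B := by
  ext l; simp only [mem_lI, mem_inter]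

lemma uI_union (A B : Finset (ℤ × ℤ)) : uI (A ∪ B) = uI A ∪ uI B := by
  ext l; simp only [mem_uI, mem_union]

lemma lI_union (A B : Finset (ℤ × ℤ)) : lI (A ∪ B) = lI A ∪ lI B := by
  ext l; simp only [mem_lI, mem_union]

/-- the upper room -/
noncomputable def RU (T : ℤ → ℤ) (B : Finset (ℤ × ℤ)) : Finset (ℤ × ℤ) :=
  B.filter fun e => T (tX e) ≤ tY e

/-- the lower room -/
noncomputable def RL (T : ℤ → ℤ) (B : Finset (ℤ × ℤ)) : Finset (ℤ × ℤ) :=
  B.filter fun e => tY e ≤ -1 - T (tX e)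

lemma mem_RU {T : ℤ → ℤ} {B : Finset (ℤ × ℤ)} {e : ℤ × ℤ} :
    e ∈ RU T B ↔ e ∈ B ∧ T (tX e) ≤ tY e := by unfold RU; rw [mem_filter]

lemma mem_RL {T : ℤ → ℤ} {B : Finset (ℤ × ℤ)} {e : ℤ × ℤ} :
    e ∈ RL T B ↔ e ∈ B ∧ tY e ≤ -1 - T (tX e) := by unfold RL; rw [mem_filter]

/-- the profile is nonincreasing and between `k` and `k + N` on the rows of `Q` -/
structure ProfOn (k N : ℤ) (T : ℤ → ℤ) (Q : Finset (ℤ × ℤ)) : Prop where
  mono : ∀ l ∈ Q, ∀ l' ∈ Q, rw' l ≤ rw' l' → T (rw' l') ≤ T (rw' l)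
  lo : ∀ l ∈ Q, k ≤ T (rw' l)
  hi : ∀ l ∈ Q, T (rw' l) ≤ k + N

/-- a label set which is inside `Q` the part above a nonincreasing profile is a staircase -/
theorem stair_on {k N : ℤ} {Q E : Finset (ℤ × ℤ)} {T : ℤ → ℤ} (hT : ProfOn k N T Q)
    (hE : ∀ l ∈ Q, l ∈ E ↔ AbvT T l) : Stair k N Q E where
  lo := by
    intro l hl hlQ
    have h1 := (hE l hlQ).1 hl
    have h2 := hT.lo l hlQ
    unfold AbvT at h1
    omega
  up := by
    intro l hlQ hl
    rw [hE l hlQ]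
    have h2 := hT.hi l hlQ
    unfold AbvT
    omega
  cl := by
    intro l hl hlQ l' hlQ' h
    rw [hE l hlQ] at hl
    rw [hE l' hlQ']
    rw [abs_le] at h
    have h3 : rw' l ≤ rw' l' := by unfold rw'; omega
    have h4 := hT.mono _ hlQ _ hlQ' h3
    unfold AbvT at hl ⊢
    omega

lemma mem_uI_RU {T : ℤ → ℤ} {B : Finset (ℤ × ℤ)} (hB : ∀ e ∈ B, (e.1 + e.2) % 2 = 1)
    {l : ℤ × ℤ} : l ∈ uI (RU T B) ↔ l ∈ uI B ∧ AbvT T l := by
  rw [mem_uI, mem_RU, mem_uI]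
  refine and_congr_right fun h => ?_
  have h1 := hB _ h
  simp only at h1
  have e1 : tX ((-l.2, l.1) : ℤ × ℤ) = rw' l := by
    unfold tX rw'; simp only; congr 1; ring
  rw [e1]
  unfold AbvT tY
  simp only
  omega

lemma mem_lI_RL {T : ℤ → ℤ} {B : Finset (ℤ × ℤ)} (hB : ∀ e ∈ B, (e.1 + e.2) % 2 = 1)
    {l : ℤ × ℤ} : l ∈ lI (RL T B) ↔ l ∈ lI B ∧ AbvT T l := by
  rw [mem_lI, mem_RL, mem_lI]
  refine and_congr_right fun h => ?_
  have h1 := hB _ h
  simp only at h1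
  have e1 : tX ((l.1, -l.2) : ℤ × ℤ) = rw' l := by
    unfold tX rw'; simp only; congr 1
  rw [e1]
  unfold AbvT tY
  simp only
  omega

/-- **the upper room is a staircase** -/
theorem stairU {k N : ℤ} {T : ℤ → ℤ} {B Q : Finset (ℤ × ℤ)} (hB : ∀ e ∈ B, (e.1 + e.2) % 2 = 1)
    (hQ : Q ⊆ uI B) (hT : ProfOn k N T Q) : Stair k N Q (uI (RU T B)) :=
  stair_on hT fun l hl => by
    rw [mem_uI_RU hB]
    exact ⟨fun h => h.2, fun h => ⟨hQ hl, h⟩⟩

/-- **the lower room is a staircase** -/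
theorem stairL {k N : ℤ} {T : ℤ → ℤ} {B Q : Finset (ℤ × ℤ)} (hB : ∀ e ∈ B, (e.1 + e.2) % 2 = 1)
    (hQ : Q ⊆ lI B) (hT : ProfOn k N T Q) : Stair k N Q (lI (RL T B)) :=
  stair_on hT fun l hl => by
    rw [mem_lI_RL hB]
    exact ⟨fun h => h.2, fun h => ⟨hQ hl, h⟩⟩

/-! ### The wedge chain -/

/-- half thickness of the wedge chain with the tip at the column `Xo`, plates of `W` columns -/
def chT (Xo W t0 s : ℤ) (x : ℤ) : ℤ := if x < Xo then t0 + s * ((Xo - 1 - x) / W) else 0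

lemma chT_lt {Xo W t0 s x : ℤ} (h : x < Xo) : chT Xo W t0 s x = t0 + s * ((Xo - 1 - x) / W) := by
  unfold chT; rw [if_pos h]

lemma chT_ge {Xo W t0 s x : ℤ} (h : Xo ≤ x) : chT Xo W t0 s x = 0 := by
  unfold chT; rw [if_neg (by omega)]

/-- the thickness on the plate `i` -/
lemma chT_plate {Xo W t0 s x i : ℤ} (hW : 0 < W) (h0 : 0 ≤ i) (h1 : Xo - (i + 1) * W ≤ x)
    (h2 : x < Xo - i * W) : chT Xo W t0 s x = t0 + s * i := by
  have hx : x < Xo := by nlinarith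
  rw [chT_lt hx]
  have e1 : (Xo - 1 - x) / W = i := by
    refine le_antisymm ?_ (Int.le_ediv_of_mul_le hW (by linarith))
    have := Int.ediv_lt_of_lt_mul hW (show Xo - 1 - x < (i + 1) * W by linarith)
    omega
  rw [e1]

lemma chT_mono {Xo W t0 s : ℤ} (hW : 0 < W) (ht : 0 ≤ t0) (hs : 0 ≤ s) {x y : ℤ} (h : x ≤ y) :
    chT Xo W t0 s y ≤ chT Xo W t0 s x := by
  rcases lt_or_ge x Xo with h1 | h1
  · have hnn : 0 ≤ (Xo - 1 - x) / W := Int.ediv_nonneg (by omega) hW.le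
    rcases lt_or_ge y Xo with h2 | h2
    · rw [chT_lt h1, chT_lt h2]
      have h3 : (Xo - 1 - y) / W ≤ (Xo - 1 - x) / W := Int.ediv_le_ediv hW (by omega)
      nlinarith
    · rw [chT_lt h1, chT_ge h2]
      nlinarith
  · rw [chT_ge h1, chT_ge (h1.trans h)]

lemma chT_nonneg {Xo W t0 s : ℤ} (hW : 0 < W) (ht : 0 ≤ t0) (hs : 0 ≤ s) (x : ℤ) :
    0 ≤ chT Xo W t0 s x := by
  rcases lt_or_ge x Xo with h1 | h1
  · have hnn : 0 ≤ (Xo - 1 - x) / W := Int.ediv_nonneg (by omega) hW.le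
    rw [chT_lt h1]
    nlinarith
  · rw [chT_ge h1]

/-- the chain is thin in a window -/
lemma chT_le {Xo W t0 s X N : ℤ} (hW : 0 < W) (ht : 0 ≤ t0) (hs : 0 ≤ s) (hX : X ≤ Xo)
    (hN : t0 * W + s * (Xo - X) ≤ N * W) {x : ℤ} (hx : X ≤ x) : chT Xo W t0 s x ≤ N := by
  have hN0 : 0 ≤ N := by
    by_contra h
    push Not at h
    nlinarith
  rcases lt_or_ge x Xo with h1 | h1
  · rw [chT_lt h1]
    have h3 : (Xo - 1 - x) / W * W ≤ Xo - 1 - x := Int.ediv_mul_le _ hW.ne'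
    have h4 : s * ((Xo - 1 - x) / W * W) ≤ s * (Xo - X) :=
      mul_le_mul_of_nonneg_left (by omega) hs
    by_contra h5
    push Not at h5
    have h6 : N * W < (t0 + s * ((Xo - 1 - x) / W)) * W := by
      exact mul_lt_mul_of_pos_right h5 hW
    nlinarith
  · rw [chT_ge h1]; exact hN0

/-- profile conditions for the chain -/
theorem prof_chT {Xo W t0 s X N : ℤ} (hW : 0 < W) (ht : 0 ≤ t0) (hs : 0 ≤ s) (hX : X ≤ Xo)
    (hN : t0 * W + s * (Xo - X) ≤ N * W) {Q : Finset (ℤ × ℤ)} (hQ : ∀ l ∈ Q, X ≤ rw' l) :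
    ProfOn 0 N (chT Xo W t0 s) Q where
  mono := fun _ _ _ _ h => chT_mono hW ht hs h
  lo := fun _ _ => chT_nonneg hW ht hs _
  hi := fun l hl => by
    rw [zero_add]
    exact chT_le hW ht hs hX hN (hQ l hl)

/-- bank centre (canonical coordinates): height `T`, row `b` or `b - 1` -/
def bc (T b : ℤ) : ℤ × ℤ := ((T + b) / 2, T - (T + b) / 2)

/-- the half box above the bank of a plate is above the profile -/
theorem HL_abv {T : ℤ → ℤ} {t b L : ℤ} (hT : ∀ x, b - 2 * L - 2 ≤ x → x ≤ b + 2 * L → T x = t)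
    {l : ℤ × ℤ} (hl : l ∈ HL 1 (bc t b) L) : AbvT T l := by
  rw [mem_HL] at hl
  unfold bc at hl
  simp only at hl
  unfold AbvT
  rw [hT (rw' l) (by unfold rw'; omega) (by unfold rw'; omega)]
  omega

/-- plate `i` of the chain, upper room -/
theorem HL_sub_U {Xo W t0 s i L : ℤ} {B : Finset (ℤ × ℤ)} (hB : ∀ e ∈ B, (e.1 + e.2) % 2 = 1)
    (hW : 0 < W) (h0 : 0 ≤ i) (hL : 4 * L + 4 ≤ W) {Q : Finset (ℤ × ℤ)} (hQ : Q ⊆ uI B)
    (hQL : HL 1 (bc (t0 + s * i) (Xo - i * W - W / 2)) L ⊆ Q) :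
    HL 1 (bc (t0 + s * i) (Xo - i * W - W / 2)) L ⊆ uI (RU (chT Xo W t0 s) B) := by
  intro l hl
  rw [mem_uI_RU hB]
  refine ⟨hQ (hQL hl), HL_abv (fun x h1 h2 => ?_) hl⟩
  have e1 : (i + 1) * W = i * W + W := by ring
  exact chT_plate hW h0 (by rw [e1]; omega) (by omega)

/-- plate `i` of the chain, lower room -/
theorem HL_sub_L {Xo W t0 s i L : ℤ} {B : Finset (ℤ × ℤ)} (hB : ∀ e ∈ B, (e.1 + e.2) % 2 = 1)
    (hW : 0 < W) (h0 : 0 ≤ i) (hL : 4 * L + 4 ≤ W) {Q : Finset (ℤ × ℤ)} (hQ : Q ⊆ lI B)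
    (hQL : HL 1 (bc (t0 + s * i) (Xo - i * W - W / 2)) L ⊆ Q) :
    HL 1 (bc (t0 + s * i) (Xo - i * W - W / 2)) L ⊆ lI (RL (chT Xo W t0 s) B) := by
  intro l hl
  rw [mem_lI_RL hB]
  refine ⟨hQ (hQL hl), HL_abv (fun x h1 h2 => ?_) hl⟩
  have e1 : (i + 1) * W = i * W + W := by ring
  exact chT_plate hW h0 (by rw [e1]; omega) (by omega)

/-- everything to the right of the tip is in one of the two rooms -/
theorem nat_chT {Xo W t0 s : ℤ} {B : Finset (ℤ × ℤ)}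
    {e : ℤ × ℤ} (he : e ∈ B) (hx : Xo ≤ tX e) :
    e ∈ RU (chT Xo W t0 s) B ∪ RL (chT Xo W t0 s) B := by
  rw [mem_union, mem_RU, mem_RL, chT_ge hx]
  rcases le_or_gt 0 (tY e) with h | h
  · exact Or.inl ⟨he, h⟩
  · exact Or.inr ⟨he, by omega⟩

end Pool.Agent.H91.W
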