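import Mathlib
import Pool.Agent.H51.W.Canon
import Pool.Agent.H91.W.Tip

set_option autoImplicit false
open Finset

/-! # Route W, W-E, E10: blocking circuit round the tip of a slit, canonical form

Canonical frame of the upper room. `E1` : labels of the upper room, `E2` : labels of the lower room,
`mir k E2` its mirror image. `SideU` : data of one side of the slit, a row of plates with bank centres
`bU i` near `z + (-16 u, 16 u)`. `TipE` : some plate is white and its two banks are joined round the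
tip. `tip_canon` : probability bounded below. -/

namespace Pool.Agent.H91.W

open Pool.Agent.H75.Perc Pool.Agent.H75.TwoArm Pool.Agent.H75.Four Pool.Agent.H49.Perc
open Pool.Agent.H69.NC Pool.Agent.H99.NC Pool.Agent.H60.Q1 Pool.Agent.H20.Q1 Pool.Agent.H59.Q1
open Pool.Agent.Q1.M6e
open Pool.Agent.H51.W
open Pool.Agent.H58.W (up mem_up up_subset up_mono PB PB_inj)

/-- **data of one side of the slit** -/
structure SideU (z : ℤ × ℤ) (u N L τ sU : ℤ) (n : ℕ) (Q E : Finset (ℤ × ℤ))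
    (bU : ℕ → ℤ × ℤ) : Prop where
  st : Stair (z.1 + z.2) τ Q E
  EQ : E ⊆ Q
  odd : ∀ l ∈ E, (l.1 + l.2) % 2 = 1
  hQ : BR z (30 * u) ⊆ Q
  sU1 : -(17 * u) ≤ sU
  sU2 : sU + n * N ≤ -(15 * u)
  nU : ∀ i, i < n → Near (wp 1 z (sU + i * N)) N (bU i)
  hU : ∀ i, i < n → z.1 + z.2 ≤ (bU i).1 + (bU i).2
  eU : ∀ i, i < n → HL 1 (bU i) L ⊆ E

variable {z : ℤ × ℤ} {u N L τ sU : ℤ} {n : ℕ} {Q E E1 E2 : Finset (ℤ × ℤ)} {bU b1 b2 : ℕ → ℤ × ℤ}

lemma SideU.abv (h : SideU z u N L τ sU n Q E bU) {s : ℤ} : Abv 1 (wp 1 z s) E := by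
  intro l hl
  refine ⟨h.odd l hl, ?_⟩
  have h1 := h.st.lo l hl (h.EQ hl)
  rw [ht_wp']
  unfold ht
  simp only [one_mul]
  omega

/-- the flat half box above the level `ht p + τ` is in `E` -/
lemma SideU.big (h : SideU z u N L τ sU n Q E bU) (H : Nums u N L τ n) {p : ℤ × ℤ} {s : ℤ}
    (hs1 : -(17 * u) ≤ s) (hs2 : s ≤ 17 * u) (hp : Near (wp 1 z s) N p)
    (hpk : z.1 + z.2 ≤ p.1 + p.2) : HL 1 (p.1, p.2 + τ) (9 * u + L + τ) ⊆ E := by
  have g1 := H.hL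
  have g2 := H.hLN
  have g3 := H.hτ
  have g4 := H.hτL
  have g5 := H.hNu
  intro l hl
  rw [mem_HL] at hl
  unfold Near wp at hp
  rw [abs_le, abs_le] at hp
  simp only [one_mul] at hl hp
  refine h.st.up l (h.hQ ?_) ?_
  · rw [mem_BR]
    omega
  · omega

/-- **the touching events** -/
theorem sideU_touch : ∃ a : ℝ, 0 < a ∧ ∃ M : ℝ, 1 ≤ M ∧ ∀ (z : ℤ × ℤ) (u N L τ sU : ℤ) (n : ℕ)
    (Q E : Finset (ℤ × ℤ)) (bU : ℕ → ℤ × ℤ), Nums u N L τ n →
    SideU z u N L τ sU n Q E bU → ∀ q : ℤ × ℤ → ℝ, (∀ e ∈ E, q e = 1 / 2) →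
    Touch q E a M n (fun i => PlT 1 E (bU i) L (9 * u)) := by
  obtain ⟨a, ha, M, hM, h⟩ := plate_touch
  refine ⟨a, ha, M, hM, ?_⟩
  intro z u N L τ sU n Q E bU H S q hq
  have g1 := H.hL
  have g2 := H.hLN
  have g5 := H.hNu
  have g6 := H.hn1
  have g7 := H.hn2
  have w : ∀ s : ℤ, ∀ i : ℕ, wp 1 (wp 1 z s) (i * N) = wp 1 z (s + i * N) := by
    intro s i
    unfold wp
    ext <;> · simp only; ring
  have hiN : ∀ i : ℕ, i < n → 0 ≤ (i : ℤ) * N ∧ (i : ℤ) * N ≤ n * N := by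
    intro i hi
    have : (i : ℤ) ≤ n := by exact_mod_cast hi.le
    constructor
    · have : (0 : ℤ) ≤ i := by positivity
      nlinarith
    · nlinarith
  have hsu1 := S.sU1
  have hsu2 := S.sU2
  refine h 1 (Or.inr rfl) (wp 1 z sU) N L τ (9 * u) n H.hL H.hLN H.hNL H.hτ H.hτL H.hn
    (by linarith) (by linarith) E S.abv q hq bU
    (fun i hi => by rw [w]; exact S.nU i hi) (fun i hi => S.eU i hi) (fun i hi => ?_)
  have := hiN i hi
  exact S.big H (s := sU + i * N) (by omega) (by omega) (S.nU i hi) (S.hU i hi)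

/-- a bank vertex is near the window -/
lemma SideU.seg (S : SideU z u N L τ sU n Q E bU) (H : Nums u N L τ n) {i : ℕ} (hi : i < n)
    {v : ℤ × ℤ} (hv : Seg (bU i) L v) : Near (zU z u) (3 * u) v := by
  have g1 := H.hL
  have g2 := H.hLN
  have g5 := H.hNu
  have g6 := H.hn1
  have g7 := H.hn2
  have k0 : (i : ℤ) ≤ n := by exact_mod_cast hi.le
  have k3 : 0 ≤ (i : ℤ) * N ∧ (i : ℤ) * N ≤ n * N := by
    constructor
    · have : (0 : ℤ) ≤ i := by positivity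
      nlinarith
    · nlinarith
  have hsu1 := S.sU1
  have hsu2 := S.sU2
  have k1 := bnk_near (Or.inr rfl) hv
  have k2 := S.nU i hi
  unfold Near wp at k2
  unfold Near at k1
  unfold Near zU
  rw [abs_le, abs_le] at k1 k2 ⊢
  simp only [one_mul] at k2 ⊢
  omega

/-- **the event of the tip**: the banks of a white plate are joined round the tip -/
def TipE {α : Type*} [DecidableEq α] (n : ℕ) (u L : ℤ) (z : ℤ × ℤ) (E1 E2 : Finset (ℤ × ℤ))
    (b1 b2 : ℕ → ℤ × ℤ) (f : ℤ × ℤ → α) (g : ℕ → α) (ω : Finset α) : Prop :=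
  ∃ i, i < n ∧ (∃ v v', Seg (b1 i) L v ∧ Seg (b2 i) L (mv (z.1 + z.2) v') ∧
    Co (up (E1 ∪ E2) f ω ∩ (E1 ∪ E2) ∩ Rg z (10 * u - 1) (22 * u)) v v') ∧ g i ∈ ω

section
variable {α : Type*} [DecidableEq α] {f : ℤ × ℤ → α} {g : ℕ → α} {ω ω' : Finset α}

lemma TipE_inc : Inc (TipE n u L z E1 E2 b1 b2 f g) := by
  rintro ω ω' h ⟨i, hi, ⟨v, v', h1, h2, h3⟩, h4⟩
  exact ⟨i, hi, ⟨v, v', h1, h2, h3.mono (inter_subset_inter_right
    (inter_subset_inter_right (up_mono h)))⟩, h h4⟩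

/-- bits which decide the event -/
noncomputable def tipS (n : ℕ) (u : ℤ) (z : ℤ × ℤ) (E1 E2 : Finset (ℤ × ℤ))
    (f : ℤ × ℤ → α) (g : ℕ → α) : Finset α :=
  ((E1 ∪ E2) ∩ Rg z (10 * u - 1) (22 * u)).image f ∪ (range n).image g

/-- the event is decided by the bits `tipS` -/
theorem TipE_local : TipE n u L z E1 E2 b1 b2 f g ω ↔
    TipE n u L z E1 E2 b1 b2 f g (ω ∩ tipS n u z E1 E2 f g) := by
  constructor
  · rintro ⟨i, hi, ⟨v, v', h1, h2, h3⟩, h4⟩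
    refine ⟨i, hi, ⟨v, v', h1, h2, h3.mono ?_⟩,
      mem_inter.2 ⟨h4, mem_union_right _ (mem_image_of_mem g (mem_range.2 hi))⟩⟩
    intro l hl
    obtain ⟨k1, k2⟩ := mem_inter.1 hl
    obtain ⟨k3, k4⟩ := mem_inter.1 k1
    rw [mem_up] at k3
    exact mem_inter.2 ⟨mem_inter.2 ⟨mem_up.2 ⟨k3.1, mem_inter.2 ⟨k3.2, mem_union_left _
      (mem_image_of_mem f (mem_inter.2 ⟨k4, k2⟩))⟩⟩, k4⟩, k2⟩
  · exact fun h => TipE_inc _ _ inter_subset_left h

lemma up_mir {k : ℤ} {E : Finset (ℤ × ℤ)} :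
    up (mir k E) (fun l => f (2 * k - l.2, 2 * k - l.1)) ω = mir k (up E f ω) := by
  ext l
  rw [mem_up, mem_mir, mem_mir, mem_up]

lemma up_sub {E F : Finset (ℤ × ℤ)} (h : E ⊆ F) (hω : ω ⊆ ω') : up E f ω ⊆ up F f ω' := by
  intro l hl
  rw [mem_up] at hl ⊢
  exact ⟨h hl.1, hω hl.2⟩

end

/-- **blocking circuit round the tip, canonical form** -/
theorem tip_canon : ∃ c : ℝ, 0 < c ∧ ∀ {α : Type*} [DecidableEq α] (Ω : Finset α)
    (u N L τ : ℤ) (n : ℕ), Nums u N L τ n →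
    ∀ (z : ℤ × ℤ) (s1 s2 : ℤ) (Q E1 E2 : Finset (ℤ × ℤ)) (b1 b2 : ℕ → ℤ × ℤ),
    SideU z u N L τ s1 n Q E1 b1 → SideU z u N L τ s2 n Q (mir (z.1 + z.2) E2) b2 →
    mir (z.1 + z.2) Q = Q → Nat' τ Q E1 E2 z → Disjoint E1 E2 →
    ∀ (f : ℤ × ℤ → α) (g : ℕ → α), (∀ l ∈ E1 ∪ E2, ∀ l' ∈ E1 ∪ E2, f l = f l' → l = l') →
    (∀ l ∈ E1 ∪ E2, f l ∈ Ω) → (∀ j, j < n → g j ∈ Ω) →
    (∀ l ∈ E1 ∪ E2, ∀ j, j < n → f l ≠ g j) →
    c ≤ Pr Ω (TipE n u L z E1 E2 b1 b2 f g) := by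
  obtain ⟨a, ha, M, hM, ht⟩ := sideU_touch
  obtain ⟨c0, hc0, hF⟩ := FT_prob
  refine ⟨(1 / 2 * a ^ 2) ^ 2 * (1 - 2 * (1 / 3)) / (2 * M ^ 2) * c0, by
    have : (0 : ℝ) < 1 - 2 * (1 / 3) := by norm_num
    positivity, ?_⟩
  intro α _ Ω u N L τ n H z s1 s2 Q E1 E2 b1 b2 S1 S2 hQm hnat hd f g hfi hfΩ hgΩ hfg
  set k := z.1 + z.2 with hk
  have g1 := H.hL
  have g2 := H.hLN
  have g3 := H.hτ
  have g4 := H.hτL
  have g5 := H.hNu
  have g6 := H.hn1
  have g7 := H.hn2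
  have T1 := (ht z u N L τ s1 n Q E1 b1 H S1 (fun _ => 1 / 2) (fun _ _ => rfl)).of_inj (f := f)
    (fun l hl l' hl' h => hfi l (mem_union_left _ hl) l' (mem_union_left _ hl') h)
  have T2 := (ht z u N L τ s2 n Q (mir k E2) b2 H S2 (fun _ => 1 / 2) (fun _ _ => rfl)).of_inj
    (f := fun l => f (2 * k - l.2, 2 * k - l.1))
    (fun l hl l' hl' h => by
      rw [mem_mir] at hl hl'
      have := hfi _ (mem_union_right _ hl) _ (mem_union_right _ hl') h
      rw [Prod.mk.injEq] at this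
      exact Prod.ext (by omega) (by omega))
  have im2 : (mir k E2).image (fun l => f (2 * k - l.2, 2 * k - l.1)) = E2.image f := by
    ext x
    rw [mem_image, mem_image]
    constructor
    · rintro ⟨l, hl, rfl⟩
      exact ⟨_, mem_mir.1 hl, rfl⟩
    · rintro ⟨l, hl, rfl⟩
      refine ⟨(2 * k - l.2, 2 * k - l.1), mem_mir.2 ?_, ?_⟩
      · simpa using hl
      · simp
  rw [im2] at T2
  have hq : Wt (fun _ : α => (1 / 2 : ℝ)) := fun _ => ⟨by norm_num, by norm_num⟩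
  have s1' : E1.image f ⊆ Ω := by
    intro x hx; obtain ⟨l, hl, rfl⟩ := mem_image.1 hx; exact hfΩ l (mem_union_left _ hl)
  have s2' : E2.image f ⊆ Ω := by
    intro x hx; obtain ⟨l, hl, rfl⟩ := mem_image.1 hx; exact hfΩ l (mem_union_right _ hl)
  have s3' : (range n).image g ⊆ Ω := by
    intro x hx; obtain ⟨l, hl, rfl⟩ := mem_image.1 hx; exact hgΩ l (mem_range.1 hl)
  have s4' : (E1 ∪ E2).image f ⊆ Ω := by
    intro x hx; obtain ⟨l, hl, rfl⟩ := mem_image.1 hx; exact hfΩ l hl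
  have D12 : Disjoint (E1.image f) (E2.image f) := by
    rw [disjoint_left]
    rintro x h1 h2
    obtain ⟨l, hl, rfl⟩ := mem_image.1 h1
    obtain ⟨l', hl', h⟩ := mem_image.1 h2
    have := hfi l (mem_union_left _ hl) l' (mem_union_right _ hl') h.symm
    subst this
    exact (disjoint_left.1 hd) hl hl'
  have D13 : Disjoint (E1.image f) ((range n).image g) := by
    rw [disjoint_left]
    rintro x h1 h2
    obtain ⟨l, hl, rfl⟩ := mem_image.1 h1
    obtain ⟨l', hl', h⟩ := mem_image.1 h2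
    exact hfg l (mem_union_left _ hl) l' (mem_range.1 hl') h.symm
  have D23 : Disjoint (E2.image f) ((range n).image g) := by
    rw [disjoint_left]
    rintro x h1 h2
    obtain ⟨l, hl, rfl⟩ := mem_image.1 h1
    obtain ⟨l', hl', h⟩ := mem_image.1 h2
    exact hfg l (mem_union_right _ hl) l' (mem_range.1 hl') h.symm
  have m1 := moment_touch hq s1' s2' s3' D12 D13 D23 (s := 1 / 3) (by norm_num) (by norm_num) ha.le
    (by linarith) (p0 := 1 / 2) (by norm_num) H.hn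
    (fun i ω => PlT 1 E1 (b1 i) L (9 * u) (up E1 f ω))
    (fun i ω => PlT 1 (mir k E2) (b2 i) L (9 * u) (up (mir k E2)
      (fun l => f (2 * k - l.2, 2 * k - l.1)) ω))
    (fun j ω => g j ∈ ω) T1.low T2.low
    (fun j hj => by
      rw [PQ_half (fun _ _ => rfl), Pr_mem (mem_image_of_mem g (mem_range.2 hj))])
    T1.two T2.two
  set X : Finset α → Prop := fun ω => ∃ i, i < n ∧
    (PlT 1 E1 (b1 i) L (9 * u) (up E1 f (ω ∩ E1.image f))) ∧
    (PlT 1 (mir k E2) (b2 i) L (9 * u) (up (mir k E2)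
      (fun l => f (2 * k - l.2, 2 * k - l.1)) (ω ∩ E2.image f))) ∧
    g i ∈ ω ∩ (range n).image g with hX
  have iX : Inc X := by
    rintro ω ω' h ⟨i, hi, h1, h2, h3⟩
    exact ⟨i, hi, PlT_inc _ _ (up_mono (inter_subset_inter_right h)) h1,
      PlT_inc _ _ (up_mono (inter_subset_inter_right h)) h2, inter_subset_inter_right h h3⟩
  set Y : Finset α → Prop := fun ω => FT k Q E1 E2 τ z u (up (E1 ∪ E2) f ω) with hY
  have iY : Inc Y := fun ω ω' h h1 => FT_inc _ _ (up_mono h) h1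
  have pY : c0 ≤ PQ (fun _ : α => 1 / 2) Ω Y := by
    have e1 : PQ (fun _ : α => 1 / 2) Ω Y = PQ (fun _ : α => 1 / 2) Ω
        (fun ω => Y (ω ∩ (E1 ∪ E2).image f)) := by
      congr 1
      funext ω
      rw [hY]
      simp only
      rw [up_inter_image]
    rw [e1, PQ_restrict s4', PQ_half (fun _ _ => rfl)]
    have e2 : Pr ((E1 ∪ E2).image f) Y = Pr (E1 ∪ E2) (FT k Q E1 E2 τ z u) :=
      PB_inj hfi (FT k Q E1 E2 τ z u)
    rw [e2, ← hf_Pr]
    exact hF hf hf_Qh k τ Q E1 E2 S1.st S2.st hQm z u hnat rfl g3 (by omega) (by omega)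
      ((BR_mono (by omega)).trans S1.hQ)
  have k1 := PQ_harris hq Ω iX iY
  have k2 := (mul_le_mul m1 pY hc0.le (PQ_nonneg hq Ω X)).trans k1
  rw [PQ_half (fun _ _ => rfl)] at k2
  refine k2.trans (Pr_mono fun ω _ h => ?_)
  obtain ⟨⟨i, hi, ⟨v, hv, hv1⟩, ⟨v', hv', hv1'⟩, h3⟩, h4⟩ := h
  refine ⟨i, hi, ⟨v, mv k v', hv, by rw [mv_mv]; exact hv', ?_⟩, (mem_inter.1 h3).1⟩
  have a1 : ArmE E1 u v (up (E1 ∪ E2) f ω) :=
    ArmE_inc _ _ (up_sub subset_union_left inter_subset_left) (Arm.armE hv1)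
  have a2 : ArmE (mir k E2) u v' (mir k (up (E1 ∪ E2) f ω)) := by
    refine ArmE_inc _ _ ?_ (Arm.armE hv1')
    rw [up_mir]
    exact mir_mono (up_sub subset_union_right inter_subset_left)
  exact u_tip S1.st S2.st rfl g3 (by omega) (by omega) ((BR_mono (by omega)).trans S1.hQ) h4
    (S1.seg H hi hv) (by rw [mv_mv]; exact S2.seg H hi hv') a1 (by rw [mv_mv]; exact a2)

end Pool.Agent.H91.W
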