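import Mathlib
import Pool.Agent.H91.W.TipC
import Pool.Agent.H91.W.Rooms
import Pool.Agent.H98.W.Planar

set_option autoImplicit false
open Finset

/-! # Route W, W-E, E10: the blocking circuit round the tip, in true coordinates

Tile frame (`tX`, `tY`). The chain is to the left of `Xo ≥ 0`: the plate `p` has the columns
`Xo - (p+1) W ≤ x < Xo - p W` and the rows `-(t2 + s p) ≤ y < t1 + s p`. `bt2` : block map.
`tip_prob` : in every world `F` which contains the labels of the ring `9 u .. 23 u`, the probability of a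
dual path from the inner box to the outside is at most `1 - c`. -/

namespace Pool.Agent.H91.W

open Pool.Agent.H75.Perc hiding WL CT hh EE sh
open Pool.Agent.H75.TwoArm Pool.Agent.H75.Four
open Pool.Agent.H69.NC Pool.Agent.H99.NC Pool.Agent.H60.Q1
open Pool.Agent.Q1.M6e
open Pool.Agent.H33.Q1 (tt lt tt_lt lt_odd tv OA BZ)
open Pool.Agent.H51.W (Nums Seg Touch)
open Pool.Agent.H98.W (TR mem_TR Ed OffL block_plate)
open Pool.Agent.H58.W (up mem_up up_subset up_mono PB_inj Pr_not)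

/-- block map of the wedge chain with half thicknesses `t1 + s i` above and `t2 + s i` below -/
def bt2 (Xo W t1 t2 s : ℤ) (e : ℤ × ℤ) : (ℤ × ℤ) ⊕ ℤ :=
  if tX e < Xo ∧ -(chT Xo W t2 s (tX e)) ≤ tY e ∧ tY e < chT Xo W t1 s (tX e) then
    Sum.inr ((Xo - 1 - tX e) / W) else Sum.inl e

/-- numbers of the chain at the scale `u` -/
structure TipN (Xo W t1 t2 s N L τ u : ℤ) (n : ℕ) : Prop where
  num : Nums u N L τ n
  hn3 : (n : ℤ) * N + N ≤ 2 * u
  hW : W = 2 * N
  hL : 2 * L + 2 ≤ N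
  h1 : 1 ≤ t1
  h2 : 1 ≤ t2
  hs : 0 ≤ s
  X0 : 0 ≤ Xo
  X1 : Xo ≤ τ
  th1 : t1 * W + s * (Xo + 64 * u) ≤ τ * W
  th2 : t2 * W + s * (Xo + 64 * u) ≤ τ * W

variable {Xo W t1 t2 s N L τ u : ℤ} {n : ℕ} {F : Finset (ℤ × ℤ)} {ω : Finset ((ℤ × ℤ) ⊕ ℤ)}

/-- true label of a canonical label -/
def gT (l : ℤ × ℤ) : ℤ × ℤ := (-l.2, l.1)

lemma gT_inj {l l' : ℤ × ℤ} (h : gT l = gT l') : l = l' := by
  unfold gT at h
  rw [Prod.mk.injEq] at h
  exact Prod.ext h.2 (by omega)

lemma co_gT {A : Finset (ℤ × ℤ)} {u v : ℤ × ℤ} (h : Co A u v) : Co (A.image gT) (gT u) (gT v) := by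
  induction h with
  | refl => exact Co.refl _ _
  | @tail b c _ hbc ih =>
    refine ih.tail ⟨?_, ?_⟩
    · have := unit_cases hbc.1
      unfold gT IsUnit4
      simp only [Prod.ext_iff, Prod.fst_sub, Prod.snd_sub]
      omega
    · have : gT b + gT c = gT (b + c) := by
        unfold gT
        refine Prod.ext ?_ ?_ <;> simp only [Prod.fst_add, Prod.snd_add]
        ring
      rw [this]
      exact mem_image_of_mem _ hbc.2

lemma bt2_inl {e e' : ℤ × ℤ} (h : bt2 Xo W t1 t2 s e = Sum.inl e') : e = e' := by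
  unfold bt2 at h
  split_ifs at h
  exact Sum.inl_injective h

lemma mem_up_of_inl (hω : ω ⊆ F.image (bt2 Xo W t1 t2 s)) {e : ℤ × ℤ} (h : Sum.inl e ∈ ω) :
    e ∈ up F (bt2 Xo W t1 t2 s) ω := by
  obtain ⟨e', h1, h2⟩ := mem_image.1 (hω h)
  have h3 := bt2_inl h2
  subst h3
  rw [mem_up, h2]
  exact ⟨h1, h⟩

lemma TipN.W0 (H : TipN Xo W t1 t2 s N L τ u n) : 0 < W := by
  have := H.hW
  have := H.num.hL
  have := H.num.hLN
  omega

/-- the first plate of the row -/
def tP (Xo W N u : ℤ) : ℤ := (Xo - N + 34 * u) / W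

/-- the abscissa of the first plate -/
def tS (Xo W N u : ℤ) : ℤ := (Xo - N - tP Xo W N u * W) / 2

lemma TipN.row (H : TipN Xo W t1 t2 s N L τ u n) :
    -(34 * u) ≤ Xo - N - tP Xo W N u * W ∧ Xo - N - tP Xo W N u * W < -(34 * u) + W := by
  have h1 := Int.ediv_mul_le (Xo - N + 34 * u) H.W0.ne'
  have h2 := Int.lt_ediv_add_one_mul_self (Xo - N + 34 * u) H.W0
  have h3 : ((Xo - N + 34 * u) / W + 1) * W = (Xo - N + 34 * u) / W * W + W := by ring
  unfold tP
  omega

/-- facts about the plate `i` of the row -/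
lemma TipN.plate (H : TipN Xo W t1 t2 s N L τ u n) {i : ℕ} (hi : i < n) :
    0 ≤ tP Xo W N u - i ∧
      Xo - (tP Xo W N u - i) * W ≤ -(30 * u) ∧
      -(35 * u) ≤ Xo - ((tP Xo W N u - i) * W + W) ∧
      Xo - (tP Xo W N u - i) * W = Xo - tP Xo W N u * W + 2 * (i * N) ∧
      (0 ≤ (i : ℤ) * N ∧ (i : ℤ) * N + N ≤ n * N) := by
  have hW := H.hW
  have W0 := H.W0
  have g1 := H.num.hL
  have g2 := H.num.hLN
  have g5 := H.num.hNu
  have g7 := H.hn3
  have g9 := H.X0
  have r := H.row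
  set P := tP Xo W N u with hP
  have e1 : Xo - (P - i) * W = Xo - P * W + 2 * (i * N) := by rw [hW]; ring
  have hiN : 0 ≤ (i : ℤ) * N ∧ (i : ℤ) * N + N ≤ n * N := by
    have a1 : (i : ℤ) + 1 ≤ n := by exact_mod_cast hi
    have a2 : (0 : ℤ) ≤ i := by positivity
    constructor
    · nlinarith
    · nlinarith
  have h3 : 0 ≤ P - i := by
    by_contra h
    have : (P - i) * W ≤ -1 * W := by
      apply mul_le_mul_of_nonneg_right _ W0.le
      omega
    omega
  refine ⟨h3, ?_, ?_, e1, hiN⟩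
  · omega
  · omega

/-- half thickness of a plate -/
lemma thick (hW : 0 < W) (hs : 0 ≤ s) (hX0 : 0 ≤ Xo) (hu : 0 ≤ u) {t : ℤ} (ht : 1 ≤ t)
    (hth : t * W + s * (Xo + 64 * u) ≤ τ * W) {p : ℤ} (hp : 0 ≤ p)
    (h1 : -(64 * u) ≤ Xo - (p * W + W)) : t ≤ t + s * p ∧ t + s * p ≤ τ := by
  have h2 := mul_nonneg hs hp
  refine ⟨by omega, ?_⟩
  have h3 := chT_plate (Xo := Xo) (W := W) (t0 := t) (s := s) (x := Xo - (p * W + W)) (i := p) hW hp
    (by linarith) (by linarith)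
  have h4 := chT_le (Xo := Xo) (W := W) (t0 := t) (s := s) (X := -(64 * u)) (N := τ) hW (by omega) hs
    (by omega) (by linarith) h1
  rw [h3] at h4
  exact h4

lemma uI_BR (r : ℤ) : uI (BR (0, 0) r) = BR (0, 0) r := by
  ext l
  rw [mem_uI, mem_BR, mem_BR]
  simp only
  omega

lemma lI_BR (r : ℤ) : lI (BR (0, 0) r) = BR (0, 0) r := by
  ext l
  rw [mem_lI, mem_BR, mem_BR]
  simp only
  omega

lemma BR_odd {z : ℤ × ℤ} {r : ℤ} : ∀ e ∈ BR z r, (e.1 + e.2) % 2 = 1 := by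
  intro e he
  rw [mem_BR] at he
  exact he.2.2

/-- canonical upper room -/
noncomputable def cU (Xo W t1 s u : ℤ) : Finset (ℤ × ℤ) := uI (RU (chT Xo W t1 s) (BR (0, 0) (30 * u)))

/-- canonical lower room, seen from above -/
noncomputable def cL (Xo W t2 s u : ℤ) : Finset (ℤ × ℤ) := uI (RL (chT Xo W t2 s) (BR (0, 0) (30 * u)))

lemma mem_cU {l : ℤ × ℤ} : l ∈ cU Xo W t1 s u ↔ gT l ∈ BR (0, 0) (30 * u) ∧
    chT Xo W t1 s (tX (gT l)) ≤ tY (gT l) := by
  unfold cU gT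
  rw [mem_uI, mem_RU]

lemma mem_cL {l : ℤ × ℤ} : l ∈ cL Xo W t2 s u ↔ gT l ∈ BR (0, 0) (30 * u) ∧
    tY (gT l) ≤ -1 - chT Xo W t2 s (tX (gT l)) := by
  unfold cL gT
  rw [mem_uI, mem_RL]

/-- banks of the plates -/
def tB (Xo W N u t s : ℤ) (i : ℕ) : ℤ × ℤ :=
  bc (t + s * (tP Xo W N u - i)) (Xo - (tP Xo W N u - i) * W - W / 2)

lemma TipN.near (H : TipN Xo W t1 t2 s N L τ u n) {t : ℤ} (ht : 1 ≤ t)
    (hth : t * W + s * (Xo + 64 * u) ≤ τ * W) {i : ℕ} (hi : i < n) :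
    Near (wp 1 (0, 0) (tS Xo W N u + i * N)) N (tB Xo W N u t s i) ∧
    ((0, 0) : ℤ × ℤ).1 + ((0, 0) : ℤ × ℤ).2 ≤ (tB Xo W N u t s i).1 + (tB Xo W N u t s i).2 := by
  have hW := H.hW
  have W0 := H.W0
  have g1 := H.num.hL
  have g2 := H.num.hLN
  have g3 := H.num.hτL
  have g5 := H.num.hNu
  obtain ⟨k1, k2, k3, k4, k5⟩ := H.plate hi
  obtain ⟨k6, k7⟩ := thick W0 H.hs H.X0 (by omega) ht hth k1 (by omega)
  unfold Near wp tB bc tS
  rw [abs_le, abs_le]
  simp only [one_mul]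
  rw [k4]
  generalize t + s * (tP Xo W N u - i) = T at k6 k7
  generalize tP Xo W N u * W = PW
  generalize (i : ℤ) * N = iN at k5
  omega

/-- **the upper side** -/
theorem TipN.sideU (H : TipN Xo W t1 t2 s N L τ u n) :
    SideU (0, 0) u N L τ (tS Xo W N u) n (BR (0, 0) (30 * u)) (cU Xo W t1 s u)
      (tB Xo W N u t1 s) := by
  have hW := H.hW
  have W0 := H.W0
  have g1 := H.num.hL
  have g2 := H.num.hLN
  have g3 := H.num.hτL
  have g5 := H.num.hNu
  have g7 := H.hn3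
  have hL := H.hL
  have X0 := H.X0
  have r := H.row
  refine ⟨?_, ?_, ?_, subset_rfl, ?_, ?_, ?_, ?_, ?_⟩
  · have := stairU (k := 0) (N := τ) (T := chT Xo W t1 s) (B := BR (0, 0) (30 * u))
      (Q := BR (0, 0) (30 * u)) BR_odd (by rw [uI_BR]) (prof_chT (X := -(64 * u)) W0 (by linarith [H.h1])
        H.hs (by omega) (by linarith [H.th1]) (by
          intro l hl
          rw [mem_BR] at hl
          simp only at hl
          unfold rw'
          omega))
    simp only [add_zero]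
    exact this
  · intro l hl
    rw [mem_cU] at hl
    have := hl.1
    unfold gT at this
    rw [mem_BR] at this ⊢
    simp only at this ⊢
    omega
  · intro l hl
    rw [mem_cU, mem_BR] at hl
    unfold gT at hl
    simp only at hl
    omega
  · unfold tS; omega
  · unfold tS; omega
  · exact fun i hi => (H.near H.h1 H.th1 hi).1
  · exact fun i hi => (H.near H.h1 H.th1 hi).2
  · intro i hi
    obtain ⟨k1, k2, k3, k4, k5⟩ := H.plate hi
    refine HL_sub_U BR_odd W0 k1 (by omega) (Q := BR (0, 0) (30 * u)) (by rw [uI_BR]) ?_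
    intro l hl
    have n1 := (H.near H.h1 H.th1 hi).1
    unfold tB at n1
    rw [mem_HL] at hl
    rw [mem_BR]
    unfold Near wp tS at n1
    rw [abs_le, abs_le] at n1
    simp only [one_mul] at hl n1 ⊢
    generalize bc (t1 + s * (tP Xo W N u - i)) (Xo - (tP Xo W N u - i) * W - W / 2) = b at hl n1
    generalize tP Xo W N u * W = PW at r n1
    generalize (i : ℤ) * N = iN at k5 n1
    omega

/-- **the lower side** -/
theorem TipN.sideL (H : TipN Xo W t1 t2 s N L τ u n) :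
    SideU (0, 0) u N L τ (tS Xo W N u) n (BR (0, 0) (30 * u))
      (mir (((0, 0) : ℤ × ℤ).1 + ((0, 0) : ℤ × ℤ).2) (cL Xo W t2 s u)) (tB Xo W N u t2 s) := by
  have hW := H.hW
  have W0 := H.W0
  have g1 := H.num.hL
  have g2 := H.num.hLN
  have g3 := H.num.hτL
  have g5 := H.num.hNu
  have g7 := H.hn3
  have hL := H.hL
  have X0 := H.X0
  have r := H.row
  have em : mir (((0, 0) : ℤ × ℤ).1 + ((0, 0) : ℤ × ℤ).2) (cL Xo W t2 s u) =
      lI (RL (chT Xo W t2 s) (BR (0, 0) (30 * u))) := by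
    rw [lI_eq_mir]
    simp only [add_zero]
    rfl
  rw [em]
  have hm : ∀ l ∈ lI (RL (chT Xo W t2 s) (BR (0, 0) (30 * u))), l ∈ BR (0, 0) (30 * u) := by
    intro l hl
    rw [mem_lI, mem_RL] at hl
    have := hl.1
    rw [mem_BR] at this ⊢
    simp only at this ⊢
    omega
  refine ⟨?_, hm, ?_, subset_rfl, ?_, ?_, ?_, ?_, ?_⟩
  · have := stairL (k := 0) (N := τ) (T := chT Xo W t2 s) (B := BR (0, 0) (30 * u))
      (Q := BR (0, 0) (30 * u)) BR_odd (by rw [lI_BR]) (prof_chT (X := -(64 * u)) W0 (by linarith [H.h2])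
        H.hs (by omega) (by linarith [H.th2]) (by
          intro l hl
          rw [mem_BR] at hl
          simp only at hl
          unfold rw'
          omega))
    simpa using this
  · intro l hl
    exact BR_odd l (hm l hl)
  · unfold tS; omega
  · unfold tS; omega
  · exact fun i hi => (H.near H.h2 H.th2 hi).1
  · exact fun i hi => (H.near H.h2 H.th2 hi).2
  · intro i hi
    obtain ⟨k1, k2, k3, k4, k5⟩ := H.plate hi
    refine HL_sub_L BR_odd W0 k1 (by omega) (Q := BR (0, 0) (30 * u)) (by rw [lI_BR]) ?_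
    intro l hl
    have n1 := (H.near H.h2 H.th2 hi).1
    unfold tB at n1
    rw [mem_HL] at hl
    rw [mem_BR]
    unfold Near wp tS at n1
    rw [abs_le, abs_le] at n1
    simp only [one_mul] at hl n1 ⊢
    generalize bc (t2 + s * (tP Xo W N u - i)) (Xo - (tP Xo W N u - i) * W - W / 2) = b at hl n1
    generalize tP Xo W N u * W = PW at r n1
    generalize (i : ℤ) * N = iN at k5 n1
    omega

/-- everything to the right of the tip is natural -/
lemma TipN.nat (H : TipN Xo W t1 t2 s N L τ u n) :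
    Nat' τ (BR (0, 0) (30 * u)) (cU Xo W t1 s u) (cL Xo W t2 s u) (0, 0) := by
  have W0 := H.W0
  have X0 := H.X0
  have X1 := H.X1
  have g1 := H.num.hL
  have g2 := H.num.hLN
  have g5 := H.num.hNu
  intro l hl h
  have hg : gT l ∈ BR (0, 0) (30 * u) := by
    unfold gT
    rw [mem_BR] at hl ⊢
    simp only at hl ⊢
    omega
  rw [mem_union, mem_cU, mem_cL]
  by_contra hcon
  rw [not_or] at hcon
  obtain ⟨h1, h2⟩ := hcon
  have h1' : ¬ chT Xo W t1 s (tX (gT l)) ≤ tY (gT l) := fun h => h1 ⟨hg, h⟩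
  have h2' : ¬ tY (gT l) ≤ -1 - chT Xo W t2 s (tX (gT l)) := fun h => h2 ⟨hg, h⟩
  have e1 : tX (gT l) + tY (gT l) + 1 = l.1 := by
    unfold tX tY gT
    rw [mem_BR] at hl
    simp only
    omega
  rcases lt_or_ge (tX (gT l)) Xo with h3 | h3
  · have h4 := chT_le (Xo := Xo) (W := W) (t0 := t1) (s := s) (X := -(64 * u)) (N := τ) W0
      (by linarith [H.h1]) H.hs (by omega) (by linarith [H.th1]) (x := tX (gT l)) (by
        rw [mem_BR] at hg
        unfold tX
        simp only at hg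
        omega)
    simp only at h
    omega
  · rw [chT_ge h3] at h1' h2'
    omega

lemma rooms_disj (hW : 0 < W) (h1 : 1 ≤ t1) (h2 : 1 ≤ t2) (hs : 0 ≤ s) :
    Disjoint (cU Xo W t1 s u) (cL Xo W t2 s u) := by
  rw [disjoint_left]
  intro l a1 a2
  rw [mem_cU] at a1
  rw [mem_cL] at a2
  have b1 := chT_nonneg (Xo := Xo) hW (by linarith : 0 ≤ t1) hs (tX (gT l))
  have b2 := chT_nonneg (Xo := Xo) hW (by linarith : 0 ≤ t2) hs (tX (gT l))
  omega

/-- the bits of the event -/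
noncomputable def gP (Xo W N u : ℤ) (i : ℕ) : (ℤ × ℤ) ⊕ ℤ := Sum.inr (tP Xo W N u - i)

/-- labels of the ring -/
def RingF (u : ℤ) (F : Finset (ℤ × ℤ)) : Prop := BR (0, 0) (23 * u) \ BR (0, 0) (9 * u) ⊆ F

/-- **Deterministic part.** -/
theorem TipN.block (H : TipN Xo W t1 t2 s N L τ u n) (hF : RingF u F)
    (hω : ω ⊆ F.image (bt2 Xo W t1 t2 s))
    (hB : TipE n u L (0, 0) (cU Xo W t1 s u) (cL Xo W t2 s u) (tB Xo W N u t1 s)
      (tB Xo W N u t2 s) (fun l => Sum.inl (gT l)) (gP Xo W N u) ω) :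
    ¬ OA (0, 0) (10 * u - 2) (22 * u + 1) (du F (up F (bt2 Xo W t1 t2 s) ω)) := by
  have hW := H.hW
  have W0 := H.W0
  have g1 := H.num.hL
  have g2 := H.num.hLN
  have g3 := H.num.hτL
  have g4 := H.num.hτ
  have g5 := H.num.hNu
  have g7 := H.hn3
  have hL := H.hL
  have X0 := H.X0
  have X1 := H.X1
  have a1 := H.h1
  have a2 := H.h2
  obtain ⟨i, hi, ⟨v, v', q1, q2, q3⟩, q4⟩ := hB
  obtain ⟨k1, k2, k3, k4, k5⟩ := H.plate hi
  unfold gP at q4
  unfold tB at q1 q2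
  generalize hp : tP Xo W N u - (i : ℤ) = p at q1 q2 q4 k1 k2 k3
  obtain ⟨r1, r2⟩ := thick W0 H.hs H.X0 (by omega) H.h1 H.th1 k1 (by omega)
  obtain ⟨r3, r4⟩ := thick W0 H.hs H.X0 (by omega) H.h2 H.th2 k1 (by omega)
  -- the plate
  have hP : ∀ l ∈ TR (Xo - (p * W + W)) (Xo - p * W) (-(t2 + s * p)) (t1 + s * p),
      l ∈ up F (bt2 Xo W t1 t2 s) ω ∧ l ∈ BZ (0, 0) (22 * u + 1 - 1) ∧
        l ∉ BZ (0, 0) (10 * u - 2 + 1) := by
    intro l hl
    obtain ⟨o, ⟨x1, x2⟩, y1, y2⟩ := mem_TR.1 hl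
    have x1' : Xo - (p * W + W) ≤ tX l := x1
    have x2' : tX l < Xo - p * W := x2
    have y1' : -(t2 + s * p) ≤ tY l := y1
    have y2' : tY l < t1 + s * p := y2
    have e1 := chT_plate (Xo := Xo) (t0 := t1) (s := s) W0 k1 (by linarith) x2'
    have e2 := chT_plate (Xo := Xo) (t0 := t2) (s := s) W0 k1 (by linarith) x2'
    have e3 : (Xo - 1 - tX l) / W = p := by
      rw [Int.ediv_eq_iff_of_pos W0]
      constructor <;> linarith
    have e4 : bt2 Xo W t1 t2 s l = Sum.inr p := by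
      unfold bt2
      rw [e1, e2, e3, if_pos]
      have := mul_nonneg k1 W0.le
      refine ⟨by omega, y1', y2'⟩
    have hb : (-(44 * u) ≤ l.1 ∧ l.1 ≤ -(20 * u)) ∧ -(44 * u) ≤ l.2 ∧ l.2 ≤ -(20 * u) := by
      unfold tX at x1' x2'
      unfold tY at y1' y2'
      omega
    refine ⟨?_, ?_, ?_⟩
    · rw [mem_up, e4]
      refine ⟨hF ?_, q4⟩
      rw [mem_sdiff, mem_BR, mem_BR]
      simp only
      omega
    · rw [mem_Bx]
      simp only
      omega
    · rw [mem_Bx]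
      simp only
      omega
  -- the labels of the path
  have hA : ∀ l ∈ ((up (cU Xo W t1 s u ∪ cL Xo W t2 s u) (fun l => Sum.inl (gT l)) ω ∩
      (cU Xo W t1 s u ∪ cL Xo W t2 s u) ∩ Rg (0, 0) (10 * u - 1) (22 * u)).image gT),
      (l ∈ up F (bt2 Xo W t1 t2 s) ω ∧ l ∈ BZ (0, 0) (22 * u + 1 - 1) ∧
        l ∉ BZ (0, 0) (10 * u - 2 + 1)) ∧ OffL l := by
    intro l hl
    obtain ⟨m, hm, rfl⟩ := mem_image.1 hl
    obtain ⟨m1, m2⟩ := mem_inter.1 hm
    obtain ⟨m3, m4⟩ := mem_inter.1 m1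
    rw [mem_Rg, mem_BR, mem_BR] at m2
    refine ⟨⟨mem_up_of_inl hω (mem_up.1 m3).2, ?_, ?_⟩, ?_⟩
    · rw [mem_Bx]
      unfold gT
      simp only at m2 ⊢
      omega
    · rw [mem_Bx]
      unfold gT
      simp only at m2 ⊢
      omega
    · intro hy
      have hy' : tY (gT m) = 0 := hy
      show 0 ≤ tX (gT m)
      by_contra hx
      push Not at hx
      have c1 := chT_lt (W := W) (t0 := t1) (s := s) (show tX (gT m) < Xo by omega)
      have c2 := chT_lt (W := W) (t0 := t2) (s := s) (show tX (gT m) < Xo by omega)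
      have c3 : 0 ≤ (Xo - 1 - tX (gT m)) / W := Int.ediv_nonneg (by omega) W0.le
      have c4 := mul_nonneg H.hs c3
      rcases mem_union.1 m4 with m4 | m4
      · rw [mem_cU] at m4
        omega
      · rw [mem_cL] at m4
        omega
  -- ends
  obtain ⟨q5, q6⟩ := q1
  obtain ⟨q7, q8⟩ := q2
  unfold ht bc at q5 q7
  unfold bc at q6 q8
  unfold mv at q7 q8
  rw [abs_le] at q6 q8
  simp only [one_mul, add_zero] at q5 q6 q7 q8
  set T1 := t1 + s * p with hT1
  set T2 := t2 + s * p with hT2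
  have hW2 : W / 2 = N := by omega
  rw [hW2] at q5 q6 q7 q8
  generalize p * W = pW at *
  refine block_plate (A := _) (by omega) (by omega) hA (x1 := Xo - (pW + W)) (x2 := Xo - pW)
    (y1 := -T2) (y2 := T1) (by omega) hP (l := lt (v.1 - v.2, T1 - 1))
    (l' := lt (v'.1 - v'.2, -T2)) ?_ ?_ ?_ ?_ (v := gT v) (v' := gT v') ?_ ?_ (co_gT q3)
  · rw [mem_TR, tt_lt]
    refine ⟨lt_odd _, ?_⟩
    simp only
    omega
  · rw [mem_TR, tt_lt]
    refine ⟨lt_odd _, ?_⟩
    simp only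
    omega
  · unfold Ed lt eu ev gT
    simp only [Prod.ext_iff]
    omega
  · unfold Ed lt eu ev gT
    simp only [Prod.ext_iff]
    omega
  · unfold gT tv
    simp only
    omega
  · unfold gT tv
    simp only
    omega

/-- **Probability of the circuit round the tip.** -/
theorem tip_prob : ∃ c : ℝ, 0 < c ∧ ∀ (Xo W t1 t2 s N L τ u : ℤ) (n : ℕ),
    TipN Xo W t1 t2 s N L τ u n → ∀ F : Finset (ℤ × ℤ), RingF u F →
    Pool.Agent.H58.W.PB F (bt2 Xo W t1 t2 s)
      (fun ω => OA (0, 0) (10 * u - 2) (22 * u + 1) (du F ω)) ≤ 1 - c := by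
  obtain ⟨c, hc, hb⟩ := tip_canon
  refine ⟨c, hc, ?_⟩
  intro Xo W t1 t2 s N L τ u n H F hF
  have hW := H.hW
  have W0 := H.W0
  have g1 := H.num.hL
  have g2 := H.num.hLN
  have g3 := H.num.hτL
  have g4 := H.num.hτ
  have g5 := H.num.hNu
  have a1 := H.h1
  have a2 := H.h2
  set E1 := cU Xo W t1 s u with hE1
  set E2 := cL Xo W t2 s u with hE2
  set f : ℤ × ℤ → (ℤ × ℤ) ⊕ ℤ := fun l => Sum.inl (gT l) with hf
  set g : ℕ → (ℤ × ℤ) ⊕ ℤ := gP Xo W N u with hg
  set b1 : ℕ → ℤ × ℤ := tB Xo W N u t1 s with hb1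
  set b2 : ℕ → ℤ × ℤ := tB Xo W N u t2 s with hb2
  set Ω' : Finset ((ℤ × ℤ) ⊕ ℤ) := (E1 ∪ E2).image f ∪ (range n).image g with hΩ'
  have key := hb Ω' u N L τ n H.num (0, 0) _ _ (BR (0, 0) (30 * u)) E1 E2 b1 b2 H.sideU H.sideL
    (mir_BR rfl _) H.nat (rooms_disj W0 a1 a2 H.hs) f g
    (fun l _ l' _ h => gT_inj (Sum.inl_injective h))
    (fun l hl => mem_union_left _ (mem_image_of_mem _ hl))
    (fun j hj => mem_union_right _ (mem_image_of_mem _ (mem_range.2 hj)))
    (fun l _ j _ h => by simp [hf, hg, gP] at h)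
  set S := tipS n u (0, 0) E1 E2 f g with hS
  set B : Finset ((ℤ × ℤ) ⊕ ℤ) → Prop := TipE n u L (0, 0) E1 E2 b1 b2 f g with hB
  have hloc : ∀ (ω : Finset ((ℤ × ℤ) ⊕ ℤ)), B ω ↔ B (ω ∩ S) := fun ω => TipE_local
  have hS' : S ⊆ Ω' := by
    intro x hx
    rw [hS] at hx
    unfold tipS at hx
    rcases mem_union.1 hx with hx | hx
    · exact mem_union_left _ (image_subset_image inter_subset_left hx)
    · exact mem_union_right _ hx
  have hSF : S ⊆ F.image (bt2 Xo W t1 t2 s) := by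
    intro x hx
    rw [hS] at hx
    unfold tipS at hx
    rcases mem_union.1 hx with hx | hx
    · obtain ⟨l, hl, rfl⟩ := mem_image.1 hx
      obtain ⟨h1, h2⟩ := mem_inter.1 hl
      refine mem_image.2 ⟨gT l, hF ?_, ?_⟩
      · rw [mem_Rg, mem_BR, mem_BR] at h2
        rw [mem_sdiff, mem_BR, mem_BR]
        unfold gT
        simp only at h2 ⊢
        omega
      · unfold bt2
        rw [if_neg]
        rintro ⟨h3, h4, h5⟩
        rcases mem_union.1 h1 with h1 | h1
        · rw [hE1, mem_cU] at h1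
          omega
        · rw [hE2, mem_cL] at h1
          omega
    · obtain ⟨i, hi, rfl⟩ := mem_image.1 hx
      obtain ⟨k1, k2, k3, k4, k5⟩ := H.plate (mem_range.1 hi)
      rw [hg]
      unfold gP
      generalize tP Xo W N u - (i : ℤ) = p at k1 k2 k3
      have e0 : tX (lt (Xo - (p * W + W), 0)) = Xo - (p * W + W) := congrArg Prod.fst (tt_lt _)
      have e0' : tY (lt (Xo - (p * W + W), 0)) = 0 := congrArg Prod.snd (tt_lt _)
      have e1 := chT_plate (Xo := Xo) (t0 := t1) (s := s) (x := tX (lt (Xo - (p * W + W), 0)))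
        W0 k1 (by rw [e0]; linarith) (by rw [e0]; linarith)
      have e2 := chT_plate (Xo := Xo) (t0 := t2) (s := s) (x := tX (lt (Xo - (p * W + W), 0)))
        W0 k1 (by rw [e0]; linarith) (by rw [e0]; linarith)
      have e3 : (Xo - 1 - tX (lt (Xo - (p * W + W), 0))) / W = p := by
        rw [e0, Int.ediv_eq_iff_of_pos W0]
        constructor <;> linarith
      have hsp := mul_nonneg H.hs k1
      refine mem_image.2 ⟨lt (Xo - (p * W + W), 0), hF ?_, ?_⟩
      · rw [mem_sdiff, mem_BR, mem_BR]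
        unfold lt
        simp only
        omega
      · unfold bt2
        rw [e1, e2, e3, e0', e0, if_pos]
        have := mul_nonneg k1 W0.le
        omega
  have e1 : Pr Ω' B = Pr (F.image (bt2 Xo W t1 t2 s)) B := by
    rw [Pr_congr (E := Ω') (B := fun ω => B (ω ∩ S)) (fun ω _ => hloc ω), Pr_restrict hS',
      Pr_congr (E := F.image (bt2 Xo W t1 t2 s)) (B := fun ω => B (ω ∩ S)) (fun ω _ => hloc ω),
      Pr_restrict hSF]
  rw [show Pr Ω' _ = Pr Ω' B from rfl, e1] at key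
  have h2 : Pool.Agent.H58.W.PB F (bt2 Xo W t1 t2 s) (fun ω => OA (0, 0) (10 * u - 2) (22 * u + 1) (du F ω)) ≤
      Pr (F.image (bt2 Xo W t1 t2 s)) (fun ω => ¬ B ω) := by
    refine Pr_mono fun ω hω h => ?_
    exact fun hB => H.block hF hω hB h
  rw [Pr_not] at h2
  linarith

end Pool.Agent.H91.W
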