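import Mathlib
import Pool.Agent.H91.W.TipRing
import Pool.Agent.H51.W.RSf

set_option autoImplicit false
open Finset

/-! # Route W, W-E, E10: the ring round the tip, both colours

`tip_pair` : one ring, tile level, half thicknesses `t1` above and `t2` below, any coin model with the
blocks of `bt2`. `tip_nums` : the numbers. `ringT_E10` : `RingT` of `H67/W/Ring.lean`. -/

namespace Pool.Agent.H91.W

open Pool.Agent.H75.Perc hiding WL CT hh PB
open Pool.Agent.H75.TwoArm Pool.Agent.H75.Four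
open Pool.Agent.H33.Q1 (tt lt tt_lt lt_odd tv OA BZ TL mem_TL ct)
open Pool.Agent.Q1.M4 (Cell)
open Pool.Agent.H58.W Pool.Agent.H50.W Pool.Agent.H6.W
open Pool.Agent.H60.Q1 (Out Near Far)
open Pool.Agent.H99.NC (BR)
open Pool.Agent.H98.W (An)
open Pool.Agent.H51.W (Nums co_dd)

lemma bt2_sh1 {Xo W t1 t2 s : ℤ} {e e' : ℤ × ℤ} :
    bt2 Xo W t1 t2 s e = bt2 Xo W t1 t2 s e' ↔
      bt2 (Xo + 1) W t1 t2 s (sh1 e) = bt2 (Xo + 1) W t1 t2 s (sh1 e') := by
  have h : ∀ e : ℤ × ℤ, bt2 (Xo + 1) W t1 t2 s (sh1 e) =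
      Sum.map sh1 id (bt2 Xo W t1 t2 s e) := by
    intro e
    have e1 : tX (sh1 e) = tX e + 1 := by
      unfold tX sh1; simp only [Function.Embedding.coeFn_mk]; omega
    have e2 : tY (sh1 e) = tY e := by
      unfold tY sh1; simp only [Function.Embedding.coeFn_mk]; omega
    have e3 : ∀ t, chT (Xo + 1) W t s (tX e + 1) = chT Xo W t s (tX e) := by
      intro t
      unfold chT
      rw [show Xo + 1 - 1 - (tX e + 1) = Xo - 1 - tX e by ring]
      by_cases h : tX e < Xo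
      · rw [if_pos h, if_pos (by omega)]
      · rw [if_neg h, if_neg (by omega)]
    unfold bt2
    rw [e1, e2, e3, e3, show Xo + 1 - 1 - (tX e + 1) = Xo - 1 - tX e by ring]
    by_cases h1 : tX e < Xo ∧ -chT Xo W t2 s (tX e) ≤ tY e ∧ tY e < chT Xo W t1 s (tX e)
    · rw [if_pos h1, if_pos (by omega)]
      rfl
    · rw [if_neg h1, if_neg (by omega)]
      rfl
  rw [h, h]
  constructor
  · intro h1; rw [h1]
  · intro h1
    exact (Sum.map_injective.2 ⟨sh1.injective, fun _ _ h => h⟩) h1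

/-- **One ring, both colours.** -/
theorem tip_pair : ∃ c : ℝ, 0 < c ∧ ∀ (Xo W t1 t2 s N L τ u : ℤ) (n : ℕ),
    TipN Xo W t1 t2 s N L τ u n → TipN (Xo + 1) W t1 t2 s N L τ u n → ∀ F : Finset (ℤ × ℤ),
    (∀ e ∈ F, (e.1 + e.2) % 2 = 1) → BR (0, 0) (24 * u) \ BR (0, 0) (8 * u) ⊆ F →
    ∀ {β : Type} [DecidableEq β] (b : ℤ × ℤ → β),
    (∀ e ∈ F, ∀ e' ∈ F, b e = b e' ↔ bt2 Xo W t1 t2 s e = bt2 Xo W t1 t2 s e') →
    ∀ ρ R : ℤ, ρ + 2 ≤ 9 * u → 23 * u ≤ R →
    PB F b (OA (0, 0) ρ R) ≤ 1 - c ∧ PB F b (fun ω => OA (0, 0) ρ R (du F ω)) ≤ 1 - c := by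
  obtain ⟨c, hc, h⟩ := tip_prob
  refine ⟨c, hc, ?_⟩
  intro Xo W t1 t2 s N L τ u n H H' F hodd hF β _ b hb ρ R h1 h2
  have u0 : 8 ≤ u := by
    have := H.num.hL
    have := H.num.hLN
    have := H.num.hNu
    omega
  have hF1 : RingF u F := by
    intro e he
    refine hF ?_
    rw [mem_sdiff, mem_BR, mem_BR] at he ⊢
    simp only at he ⊢
    omega
  have hF2 : RingF u (F.map sh1) := by
    rintro ⟨x, y⟩ he
    refine mem_map.2 ⟨(x - 1, y - 1), hF ?_, by
      unfold sh1; simp only [Function.Embedding.coeFn_mk, sub_add_cancel]⟩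
    rw [mem_sdiff, mem_BR, mem_BR] at he ⊢
    simp only at he ⊢
    omega
  have hdec : ∀ (G ω : Finset (ℤ × ℤ)) (ρ R : ℤ), ρ + 1 ≤ 9 * u → 23 * u - 1 ≤ R →
      OA (0, 0) ρ R (du G ω) → OA (0, 0) (10 * u - 2) (22 * u + 1) (du G ω) := by
    rintro G ω ρ R k1 k2 ⟨f, g, h3, h4, h5⟩
    refine ⟨f, g, ?_, ?_, h5⟩
    · unfold Near at h3 ⊢
      rw [abs_le, abs_le] at h3 ⊢
      omega
    · unfold Far at h4 ⊢
      rw [le_abs, le_abs] at h4 ⊢
      omega
  constructor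
  · set A : Finset (ℤ × ℤ) → Prop := fun ω' =>
      OA (0, 0) (10 * u - 2) (22 * u + 1) (du (F.map sh1) ω') with hA
    have e1 : PB F b (OA (0, 0) ρ R) ≤ PB F b (fun ω => A (du F ω)) := by
      refine PB_mono fun ω hω h3 => ?_
      obtain ⟨f, g, h4, h5, h6⟩ := h3
      refine hdec (F.map sh1) (du F ω) (ρ + 1) (R - 1) (by omega) (by omega)
        ⟨f + (1, 1), g + (1, 1), ?_, ?_, co_dd hω h6⟩
      · unfold Near at h4 ⊢
        rw [abs_le, abs_le] at h4 ⊢
        simp only [Prod.fst_add, Prod.snd_add] at h4 ⊢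
        omega
      · unfold Far at h5 ⊢
        rw [le_abs, le_abs] at h5 ⊢
        simp only [Prod.fst_add, Prod.snd_add] at h5 ⊢
        omega
    refine e1.trans ?_
    rw [Pool.Agent.H82.W.PB_du F b (bt2 (Xo + 1) W t1 t2 s)
      (fun e he e' he' => (hb e he e' he').trans bt2_sh1) A]
    exact h (Xo + 1) W t1 t2 s N L τ u n H' (F.map sh1) hF2
  · have e1 : PB F b (fun ω => OA (0, 0) ρ R (du F ω)) ≤
        PB F b (fun ω => OA (0, 0) (10 * u - 2) (22 * u + 1) (du F ω)) :=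
      PB_mono fun ω _ h3 => hdec F ω ρ R (by omega) (by omega) h3
    refine e1.trans ?_
    rw [PB_blocks (b' := bt2 Xo W t1 t2 s) hb]
    exact h Xo W t1 t2 s N L τ u n H F hF1

/-- **The numbers.** -/
theorem tip_nums {R M τ a h : ℕ} (hM : 0 < M) (hτ : 0 < τ)
    (hth : 64 * ((τ : ℝ) + 2 * R / M) ≤ M) (ha : 4 * M ≤ a) (haR : 64 * a ≤ R) (hh : 2 ≤ h) :
    ∃ (N L τ' : ℤ) (m : ℕ), ∀ d t1 t2 : ℤ, 0 ≤ d → d ≤ 1 → 1 ≤ t1 → t1 ≤ τ * (2 * h) → 1 ≤ t2 →
      t2 ≤ τ * (2 * h) →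
      TipN d (M * (2 * h)) t1 t2 (2 * h) N L τ' (a * (2 * h)) m := by
  have hM' : (0 : ℤ) < M := by exact_mod_cast hM
  have hMr : (0 : ℝ) < M := by exact_mod_cast hM
  have hthi : 64 * (τ : ℤ) * M + 128 * R ≤ M * M := by
    have h1 := mul_le_mul_of_nonneg_right hth hMr.le
    have h2 : 64 * ((τ : ℝ) + 2 * R / M) * M = 64 * τ * M + 128 * R := by
      field_simp
      ring
    rw [h2] at h1
    exact_mod_cast h1
  set n : ℤ := 2 * (h : ℤ) with hn
  have hn4 : 4 ≤ n := by omega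
  have hn0 : 0 < n := by omega
  set N : ℤ := M * h with hN
  have hW : (M : ℤ) * n = 2 * N := by rw [hn, hN]; ring
  set u : ℤ := a * n with hu
  have ha' : 4 * (M : ℤ) ≤ a := by exact_mod_cast ha
  have haR' : 64 * (a : ℤ) ≤ R := by exact_mod_cast haR
  have hτ' : (1 : ℤ) ≤ τ := by exact_mod_cast hτ
  have u8 : 8 * N ≤ u := by
    have := mul_le_mul_of_nonneg_right ha' hn0.le
    rw [hu]
    linarith
  have u16 : 16 * (M : ℤ) ≤ u := by
    have h1 : (4 * (M : ℤ)) * 4 ≤ a * n := mul_le_mul ha' hn4 (by norm_num) (by positivity)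
    rw [hu]
    linarith
  have uR : 64 * u ≤ R * n := by
    have := mul_le_mul_of_nonneg_right haR' hn0.le
    rw [hu]
    linarith
  set D : ℤ := (1 + 64 * u) / M + 1 with hD
  have D1 : 1 + 64 * u ≤ D * M := by
    have := Int.lt_ediv_add_one_mul_self (1 + 64 * u) hM'
    rw [hD]
    exact this.le
  have D2 : D * M ≤ 1 + 64 * u + M := by
    have := Int.ediv_mul_le (1 + 64 * u) hM'.ne'
    rw [hD, add_mul, one_mul]
    linarith
  have D0 : 1 ≤ D := by
    have : 0 ≤ (1 + 64 * u) / M := Int.ediv_nonneg (by omega) hM'.le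
    rw [hD]
    omega
  set τ' : ℤ := τ * n + D with hτd
  have key : 64 * τ' ≤ 2 * N - 6 := by
    have h1 := mul_le_mul_of_nonneg_right hthi hn0.le
    have h2 : (64 * (τ : ℤ) * M + 128 * R) * n = 64 * (τ * n) * M + 128 * (R * n) := by ring
    have h3 : (M : ℤ) * M * n = 2 * N * M := by
      rw [mul_assoc, hW]; ring
    rw [h2, h3] at h1
    have h4 : 64 * τ' * M ≤ (2 * N - 6) * M := by
      have e1 : 64 * τ' * M = 64 * (τ * n) * M + 64 * (D * M) := by rw [hτd]; ring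
      have e2 : (2 * N - 6) * (M : ℤ) = 2 * N * M - 6 * M := by ring
      rw [e1, e2]
      linarith
    exact le_of_mul_le_mul_right h4 hM'
  have τn : 4 ≤ (τ : ℤ) * n := by
    have : (1 : ℤ) * 4 ≤ τ * n := mul_le_mul hτ' hn4 (by norm_num) (by positivity)
    linarith
  have N0 : 0 < N := by omega
  have q1 := Int.ediv_mul_le u N0.ne'
  have q2 := Int.lt_ediv_add_one_mul_self u N0
  obtain ⟨m, hm⟩ : ∃ m : ℕ, (m : ℤ) = u / N + 1 := by
    have : 0 ≤ u / N := Int.ediv_nonneg (by omega) N0.le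
    exact ⟨(u / N + 1).toNat, by omega⟩
  have q3 : (m : ℤ) * N = u / N * N + N := by rw [hm]; ring
  have q4 : (u / N + 1) * N = u / N * N + N := by ring
  have q5 : 1 ≤ m := by
    have : 0 ≤ u / N := Int.ediv_nonneg (by omega) N0.le
    omega
  have hnum : Nums u N ((N - 2) / 2) τ' m :=
    ⟨by omega, by omega, by omega, by omega, by omega, u8, q5, by omega, by omega⟩
  refine ⟨N, (N - 2) / 2, τ', m, fun d t1 t2 hd0 hd1 ht1 ht1' ht2 ht2' => ?_⟩
  have th : ∀ t : ℤ, t ≤ τ * n → t * (M * n) + n * (d + 64 * u) ≤ τ' * (M * n) := by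
    intro t ht
    have h1 : t * M + (d + 64 * u) ≤ τ' * M := by
      have := mul_le_mul_of_nonneg_right ht hM'.le
      rw [hτd, add_mul]
      linarith
    have h2 := mul_le_mul_of_nonneg_right h1 hn0.le
    have e1 : (t * M + (d + 64 * u)) * n = t * (M * n) + n * (d + 64 * u) := by ring
    have e2 : τ' * M * n = τ' * (M * n) := by ring
    linarith
  exact ⟨hnum, by omega, hW, by omega, ht1, ht2, hn0.le, hd0, by omega, th t1 ht1', th t2 ht2'⟩

/-- `bt2` with equal half thicknesses -/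
lemma bt2_eq (Xo W t0 s : ℤ) (e : ℤ × ℤ) : bt2 Xo W t0 t0 s e = Pool.Agent.H51.W.bt Xo W t0 s e := by
  unfold bt2 Pool.Agent.H51.W.bt
  by_cases h : tX e < Xo
  · rw [chT_lt h]
    rfl
  · rw [if_neg (fun h' => h h'.1), if_neg]
    intro h'
    exact h h'.1

/-- **one ring around the tip**, in the form of H67/W/Ring.lean -/
theorem ringT_E10 : ∃ (K C0 : ℕ) (c : ℝ), 1 < K ∧ 0 < c ∧ Pool.Agent.H67.W.RingT K C0 c := by
  obtain ⟨c, hc, key⟩ := tip_pair
  refine ⟨32, 4, c, by norm_num, hc, ?_⟩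
  intro R M τ hch a ha haR
  refine ⟨2, fun h hh => ?_⟩
  obtain ⟨N, L, τ', m, hN⟩ := tip_nums (h := h) hch.M0 hch.τ0 hch.thin ha (by omega) hh
  have hn0 : (0 : ℤ) < 2 * (h : ℤ) := by omega
  have hτ' : (1 : ℤ) ≤ τ := by exact_mod_cast hch.τ0
  have τn : 1 ≤ (τ : ℤ) * (2 * h) := by nlinarith
  set n : ℤ := 2 * (h : ℤ) with hn
  set u : ℤ := a * n with hu
  have H0 := hN 0 (τ * n) (τ * n) le_rfl (by norm_num) τn le_rfl τn le_rfl
  have H1 := hN 1 (τ * n) (τ * n) (by norm_num) le_rfl τn le_rfl τn le_rfl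
  have uR : 64 * u ≤ R * n := by
    have h1 : 64 * (a : ℤ) ≤ R := by
      have : 64 * a ≤ R := by omega
      exact_mod_cast this
    have := mul_le_mul_of_nonneg_right h1 hn0.le
    rw [hu]
    linarith
  have u0 : 0 ≤ u := by rw [hu]; positivity
  have hF : BR (0, 0) (24 * u) \ BR (0, 0) (8 * u) ⊆
      TL (RC (-R) R (-R) R) n ∩ An 0 (a * n) (((32 : ℕ) : ℤ) * a * n) := by
    intro e he
    rw [mem_sdiff, mem_BR, mem_BR] at he
    simp only at he
    have h32 : ((32 : ℕ) : ℤ) * (a : ℤ) * n = 32 * u := by rw [hu]; push_cast; ring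
    rw [mem_inter]
    refine ⟨?_, ?_⟩
    · rw [mem_TL hn0]
      refine ⟨he.1.2.2, ?_⟩
      unfold RC
      rw [mem_product, mem_Ico, mem_Ico]
      have e0 : ct n (tt e) = (tX e / n, tY e / n) := rfl
      rw [e0]
      simp only
      rw [Int.le_ediv_iff_mul_le hn0, Int.ediv_lt_iff_lt_mul hn0, Int.le_ediv_iff_mul_le hn0,
        Int.ediv_lt_iff_lt_mul hn0]
      have e1 : -(R : ℤ) * n = -(R * n) := by ring
      rw [e1]
      unfold tX tY
      omega
    · rw [h32, ← hu]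
      show e ∈ BZ 0 (32 * u) \ BZ 0 u
      unfold BZ
      rw [mem_sdiff, mem_Bx, mem_Bx]
      simp only [Prod.fst_zero, Prod.snd_zero]
      omega
  have u1 : 16 ≤ u := by
    have := H0.num.hL
    have := H0.num.hLN
    have := H0.num.hNu
    omega
  have fin := key 0 (M * n) (τ * n) (τ * n) n N L τ' u m H0 (by rw [zero_add]; exact H1)
    (TL (RC (-R) R (-R) R) n ∩ An 0 (a * n) (((32 : ℕ) : ℤ) * a * n))
    (fun e he => ((mem_TL hn0).1 (mem_inter.1 he).1).1) hF (bk n (chn 0 M τ))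
    (fun e _ e' _ => by
      rw [bt2_eq, bt2_eq]
      have := Pool.Agent.H51.W.bk_bt (x0 := 0) (τ := τ) hch.M0 hn0 e e'
      rwa [zero_mul] at this)
    (a * n + 1) (((32 : ℕ) : ℤ) * a * n - 1)
    (by rw [← hu]; omega)
    (by rw [show ((32 : ℕ) : ℤ) * (a : ℤ) * n = 32 * u by rw [hu]; push_cast; ring]; omega)
  exact fin

end Pool.Agent.H91.W
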