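import Mathlib
import Pool.Agent.H91.W.Rooms
import Pool.Agent.H6.W.JDef

set_option autoImplicit false
open Finset

/-! # Route W, W-E: the chain `chn x0 M τ` of `H6/W/JDef` at tile level

`n` tiles per cell. The chain is the wedge `chT (x0 n) (M n) (τ n) n` of `Rooms.lean`. -/

namespace Pool.Agent.H91.W

open Pool.Agent.H75.Perc hiding WL CT hh PB
open Pool.Agent.H75.TwoArm Pool.Agent.H75.Four Pool.Agent.H60.Q1 Pool.Agent.H33.Q1
open Pool.Agent.Q1.M4 (Cell)
open Pool.Agent.H58.W Pool.Agent.H50.W Pool.Agent.H6.W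

lemma tt_eq (e : ℤ × ℤ) : tt e = (tX e, tY e) := rfl

/-- the profile of the chain -/
def cT (x0 : ℤ) (M τ : ℕ) (n : ℤ) : ℤ → ℤ := chT (x0 * n) (M * n) (τ * n) n

/-- **the chain at tile level** -/
theorem chn_eq {x0 : ℤ} {M τ : ℕ} {n : ℤ} (hn : 0 < n) (hM : 0 < M) (e : ℤ × ℤ) :
    chn x0 M τ (ct n (tt e)) =
      if tX e < x0 * n ∧ -(cT x0 M τ n (tX e)) ≤ tY e ∧ tY e < cT x0 M τ n (tX e) then
        some ((x0 * n - 1 - tX e) / (M * n)).toNat else none := by
  have hM' : (0 : ℤ) < M := by exact_mod_cast hM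
  rw [tt_eq]
  unfold chn ct cT
  simp only
  by_cases h : tX e < x0 * n
  · have h1 : tX e / n < x0 := Int.ediv_lt_of_lt_mul hn h
    rw [if_pos h1, chT_lt h]
    have e1 : x0 - tX e / n - 1 = (x0 * n - 1 - tX e) / n := by
      have a1 := Int.ediv_mul_le (tX e) hn.ne'
      have a2 := Int.lt_ediv_add_one_mul_self (tX e) hn
      refine le_antisymm (Int.le_ediv_of_mul_le hn ?_) ?_
      · nlinarith
      · have := Int.ediv_lt_of_lt_mul hn (show x0 * n - 1 - tX e < (x0 - tX e / n - 1 + 1) * n by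
          nlinarith)
        omega
    have e2 : (x0 * n - 1 - tX e) / n / M = (x0 * n - 1 - tX e) / (M * n) := by
      rw [Int.ediv_ediv_of_nonneg hn.le, mul_comm n (M : ℤ)]
    rw [e1, e2]
    set i := (x0 * n - 1 - tX e) / (M * n) with hi
    have hi0 : 0 ≤ i := Int.ediv_nonneg (by omega) (by positivity)
    rw [Int.toNat_of_nonneg hi0]
    have e3 : (-((τ : ℤ) + i) ≤ tY e / n ∧ tY e / n < (τ : ℤ) + i) ↔
        (tX e < x0 * n ∧ -((τ : ℤ) * n + n * i) ≤ tY e ∧ tY e < (τ : ℤ) * n + n * i) := by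
      have b1 : -((τ : ℤ) + i) ≤ tY e / n ↔ -((τ : ℤ) * n + n * i) ≤ tY e := by
        rw [Int.le_ediv_iff_mul_le hn]
        constructor <;> intro h <;> nlinarith
      have b2 : tY e / n < (τ : ℤ) + i ↔ tY e < (τ : ℤ) * n + n * i := by
        rw [Int.ediv_lt_iff_lt_mul hn]
        constructor <;> intro h <;> nlinarith
      rw [b1, b2]
      exact ⟨fun h' => ⟨h, h'⟩, fun h' => h'.2⟩
    by_cases h2 : (-((τ : ℤ) + i) ≤ tY e / n ∧ tY e / n < (τ : ℤ) + i)
    · rw [if_pos h2, if_pos (e3.1 h2)]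
    · rw [if_neg h2, if_neg (fun h' => h2 (e3.2 h'))]
  · have h1 : ¬ tX e / n < x0 := by
      rw [Int.ediv_lt_iff_lt_mul hn]
      exact h
    rw [if_neg h1, if_neg (fun h' => h h'.1)]

lemma cT_nonneg {x0 : ℤ} {M τ : ℕ} {n : ℤ} (hn : 0 < n) (hM : 0 < M) (x : ℤ) :
    0 ≤ cT x0 M τ n x := by
  have hM' : (0 : ℤ) < M := by exact_mod_cast hM
  exact chT_nonneg (by positivity) (by positivity) hn.le x

/-- natural label of the upper room -/
theorem chn_up {x0 : ℤ} {M τ : ℕ} {n : ℤ} (hn : 0 < n) (hM : 0 < M) {e : ℤ × ℤ} :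
    (chn x0 M τ (ct n (tt e)) = none ∧ 0 ≤ tY e) ↔ cT x0 M τ n (tX e) ≤ tY e := by
  have h0 := cT_nonneg (x0 := x0) (τ := τ) hn hM (tX e)
  rw [chn_eq hn hM]
  by_cases h : tX e < x0 * n ∧ -(cT x0 M τ n (tX e)) ≤ tY e ∧ tY e < cT x0 M τ n (tX e)
  · rw [if_pos h]
    simp only [reduceCtorEq, false_and, false_iff]
    omega
  · rw [if_neg h]
    simp only [true_and]
    constructor
    · intro h1
      by_contra h2
      push Not at h2
      refine h ⟨?_, by omega, h2⟩
      by_contra h3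
      have : cT x0 M τ n (tX e) = 0 := chT_ge (by omega)
      omega
    · intro h1; omega

/-- natural label of the lower room -/
theorem chn_lo {x0 : ℤ} {M τ : ℕ} {n : ℤ} (hn : 0 < n) (hM : 0 < M) {e : ℤ × ℤ} :
    (chn x0 M τ (ct n (tt e)) = none ∧ tY e < 0) ↔ tY e ≤ -1 - cT x0 M τ n (tX e) := by
  have h0 := cT_nonneg (x0 := x0) (τ := τ) hn hM (tX e)
  rw [chn_eq hn hM]
  by_cases h : tX e < x0 * n ∧ -(cT x0 M τ n (tX e)) ≤ tY e ∧ tY e < cT x0 M τ n (tX e)
  · rw [if_pos h]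
    simp only [reduceCtorEq, false_and, false_iff]
    omega
  · rw [if_neg h]
    simp only [true_and]
    constructor
    · intro h1
      by_contra h2
      push Not at h2
      refine h ⟨?_, by omega, by omega⟩
      by_contra h3
      have : cT x0 M τ n (tX e) = 0 := chT_ge (by omega)
      omega
    · intro h1; omega

/-- labels of the plate `i` -/
theorem chn_plate {x0 : ℤ} {M τ : ℕ} {n : ℤ} (hn : 0 < n) (hM : 0 < M) {e : ℤ × ℤ} {i : ℕ}
    (h1 : x0 * n - (i + 1) * (M * n) ≤ tX e) (h2 : tX e < x0 * n - i * (M * n))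
    (h3 : -((τ + i) * n : ℤ) ≤ tY e) (h4 : tY e < (τ + i) * n) :
    chn x0 M τ (ct n (tt e)) = some i := by
  have hM' : (0 : ℤ) < M := by exact_mod_cast hM
  have hW : (0 : ℤ) < M * n := by positivity
  have hT : cT x0 M τ n (tX e) = τ * n + n * i :=
    chT_plate hW (by positivity) (by exact_mod_cast h1) (by exact_mod_cast h2)
  have hx : tX e < x0 * n := by
    have : (0 : ℤ) ≤ i * (M * n) := by positivity
    omega
  rw [chn_eq hn hM, hT, if_pos ⟨hx, by nlinarith, by nlinarith⟩]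
  congr 1
  have e1 : (x0 * n - 1 - tX e) / (M * n) = i := by
    refine le_antisymm ?_ (Int.le_ediv_of_mul_le hW (by linarith))
    have := Int.ediv_lt_of_lt_mul hW (show x0 * n - 1 - tX e < ((i : ℤ) + 1) * (M * n) by linarith)
    omega
  rw [e1]
  simp

end Pool.Agent.H91.W
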